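import Pool.Agent.Y815.GI.Defs
import Pool.Agent.NPC.Classes

/-!
# Algorithms for graph isomorphism that are wrong about some graphs
-/

set_option autoImplicit false

namespace Pool.Agent.U16.GI

open Pool.Agent.NPC Pool.Agent.NPC.R671

/-- The class `P/poly`: polynomial time with an advice string of polynomial length that depends only
on the length of the input. -/
def InPPoly (L : Set (List Bool)) : Prop :=
  ∃ (V : List Bool → List Bool) (a : ℕ → List Bool) (p : Polynomial ℕ), PolyTime V ∧
    (∀ l, (a l).length ≤ p.eval l) ∧ ∀ x, x ∈ L ↔ V (pairBits x (a x.length)) = [true]

/-- An algorithm for graph isomorphism which accepts exactly the strings in `A` is wrong about the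
graph `G`: for some graph `H` with the same number of vertices, it gives the wrong answer to the
question whether `G` and `H` are isomorphic. (The input is the pair of the adjacency matrices of `G`
and `H`, as a bit string.) -/
def Errs (A : Set (List Bool)) {n : ℕ} (G : SimpleGraph (Fin n)) : Prop :=
  ∃ H : SimpleGraph (Fin n), ¬ (bits (adjMatrix G, adjMatrix H) ∈ A ↔ Nonempty (G ≃g H))

end Pool.Agent.U16.GI
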