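import Pool.Agent.U16.GI.Mat
import Pool.Agent.U16.GI.Defs
import Pool.Agent.H578R2.Med.NPClos

/-!
# From rarely wrong algorithms to advice
-/

set_option autoImplicit false

namespace Pool.Agent.U16.GI

open Pool.Agent.NPC Pool.Agent.NPC.R671 Pool.Agent.Y815.GI

/-- The advice: padding graphs and advice strings. -/
abbrev Adv := List (List (List Bool)) × List (List Bool)

/-- The input for the given algorithm. -/
def zz (q : (List (List Bool) × List (List Bool)) × List (List Bool)) : List Bool :=
  bits (dm q.1.1 q.2, dm q.1.2 q.2)

theorem poly_zz {α : Type} [TEnc α] {p : α → List (List Bool) × List (List Bool)}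
    {X : α → List (List Bool)} (hp : Poly p) (hX : Poly X) : Poly (fun a => zz (p a, X a)) := by
  unfold zz
  exact (Med.poly_bits (α := List (List Bool) × List (List Bool))).comp
    (f := fun a => (dm (p a).1 (X a), dm (p a).2 (X a))) (by fun_prop)

/-- The new algorithm. -/
def run (V : List Bool → List Bool)
    (q : (List (List Bool) × List (List Bool)) × Adv) : Bool :=
  (valid q.1.1 && (valid q.1.2 && decide (q.1.1.length = q.1.2.length))) &&
    decide (V (pairBits (zz (q.1, q.2.1.getD q.1.1.length []))
      (q.2.2.getD (zz (q.1, q.2.1.getD q.1.1.length [])).length [])) = [true])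

theorem poly_run {V : List Bool → List Bool} (hV : PolyTime V) : Poly (run V) := by
  have h0 : Poly (fun q : (List (List Bool) × List (List Bool)) × Adv =>
      q.2.1.getD q.1.1.length []) := by fun_prop
  have h1 : Poly (fun q : (List (List Bool) × List (List Bool)) × Adv =>
      zz (q.1, q.2.1.getD q.1.1.length [])) := poly_zz (NPC.Poly.fst NPC.Poly.id) h0
  have h2 : Poly (fun q : (List (List Bool) × List (List Bool)) × Adv =>
      q.2.2.getD (zz (q.1, q.2.1.getD q.1.1.length [])).length []) :=
    NPC.Poly.getD (by fun_prop) (NPC.Poly.length h1) (NPC.Poly.const _)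
  have h3 := (Med.poly_of_polyTime hV).comp (Med.poly_pairBits h1 h2)
  unfold run
  refine NPC.Poly.and (by fun_prop) (NPC.Poly.dec_eq h3 (NPC.Poly.const _))

theorem graphIso_iff {n : ℕ} (G H : SimpleGraph (Fin n)) :
    GraphIso (R671.adjMatrix G, R671.adjMatrix H) ↔ Nonempty (G ≃g H) := by
  rw [← bits_mem, bits_mem_lang]

/-- Codes of graphs on the same number of vertices. -/
theorem valid_pair {p : List (List Bool) × List (List Bool)}
    (h : (valid p.1 && (valid p.2 && decide (p.1.length = p.2.length))) = true) :
    ∃ (n : ℕ) (G H : SimpleGraph (Fin n)), p = (R671.adjMatrix G, R671.adjMatrix H) := by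
  rw [Bool.and_eq_true, Bool.and_eq_true, decide_eq_true_eq] at h
  obtain ⟨h1, h2, h3⟩ := h
  obtain ⟨p1, p2⟩ := p
  obtain ⟨n, G, rfl⟩ := (valid_iff _).1 h1
  obtain ⟨m, H, rfl⟩ := (valid_iff _).1 h2
  rw [length_adjMatrix, length_adjMatrix] at h3
  subst h3
  exact ⟨n, G, H, rfl⟩

theorem valid_of_graphIso {p : List (List Bool) × List (List Bool)} (h : GraphIso p) :
    (valid p.1 && (valid p.2 && decide (p.1.length = p.2.length))) = true := by
  obtain ⟨n, m, X, Y, h1, h2, ⟨φ⟩⟩ := h
  rw [Bool.and_eq_true, Bool.and_eq_true, decide_eq_true_eq]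
  refine ⟨(valid_iff _).2 ⟨n, X, h1⟩, (valid_iff _).2 ⟨m, Y, h2⟩, ?_⟩
  rw [← h1, ← h2, length_adjMatrix, length_adjMatrix]
  have := Fintype.card_congr φ.toEquiv
  simpa using this

theorem valid_adj {n : ℕ} (G H : SimpleGraph (Fin n)) :
    (valid (R671.adjMatrix G) && (valid (R671.adjMatrix H) &&
      decide ((R671.adjMatrix G).length = (R671.adjMatrix H).length))) = true := by
  rw [Bool.and_eq_true, Bool.and_eq_true, decide_eq_true_eq]
  exact ⟨(valid_iff _).2 ⟨n, G, rfl⟩, (valid_iff _).2 ⟨n, H, rfl⟩, by
    rw [length_adjMatrix, length_adjMatrix]⟩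

/-- The size of a matrix. -/
theorem sz_adjMatrix {n : ℕ} (G : SimpleGraph (Fin n)) :
    sz (R671.adjMatrix G) ≤ n * (4 * n + 2) + 1 := by
  have h1 := sz_le_length_mul (R671.adjMatrix G) (4 * n + 1) (by
    intro r hr
    unfold R671.adjMatrix at hr
    rw [List.mem_ofFn] at hr
    obtain ⟨i, rfl⟩ := hr
    refine (sz_listBool_le _).trans ?_
    simp)
  rw [length_adjMatrix] at h1
  exact h1

/-- The polynomial bounding the sizes of matrices. -/
noncomputable def szP : Polynomial ℕ :=
  Polynomial.X * (Polynomial.C 4 * Polynomial.X + Polynomial.C 2) + Polynomial.C 1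

theorem szP_eval (n : ℕ) : szP.eval n = n * (4 * n + 2) + 1 := by
  simp [szP]

/-- Padding graphs give an algorithm with advice. -/
theorem ppoly_of_pads {A : Set (List Bool)} (hA : InPPoly A) (mP : Polynomial ℕ)
    (h : ∀ n, ∃ X : SimpleGraph (Fin (mP.eval n)), ∀ G : SimpleGraph (Fin n),
      ¬ Errs A (dsum G X)) : InPPoly (lang GraphIso) := by
  obtain ⟨V, a, p, hV, ha, hVA⟩ := hA
  choose X hX using h
  set q : Polynomial ℕ := Polynomial.C 2 * szP.comp (Polynomial.X + mP) + Polynomial.C 1 with hq
  have hqe : ∀ l, q.eval l = 2 * szP.eval (l + mP.eval l) + 1 := by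
    intro l
    simp [hq]
  refine ⟨_, fun l => bits (((List.range (l + 1)).map fun n => R671.adjMatrix (X n),
      (List.range (q.eval l + 1)).map a) : Adv),
    ((Polynomial.X + Polynomial.C 1) * (szP.comp mP + Polynomial.C 1) + Polynomial.C 1) +
      ((q + Polynomial.C 1) * (Polynomial.C 4 * p.comp q + Polynomial.C 2) + Polynomial.C 1) +
        Polynomial.C 1, polyTime_pairTest (poly_run hV), ?_, ?_⟩
  · intro l
    rw [bits_length, sz_pair]
    have h1 := sz_le_length_mul ((List.range (l + 1)).map fun n => R671.adjMatrix (X n))
      (szP.eval (mP.eval l)) (by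
        intro M hM
        rw [List.mem_map] at hM
        obtain ⟨n, hn, rfl⟩ := hM
        rw [List.mem_range] at hn
        refine (sz_adjMatrix _).trans ?_
        rw [← szP_eval]
        exact eval_mono _ (eval_mono _ (by omega)))
    have h2 := sz_le_length_mul ((List.range (q.eval l + 1)).map a)
      (4 * p.eval (q.eval l) + 1) (by
        intro M hM
        rw [List.mem_map] at hM
        obtain ⟨n, hn, rfl⟩ := hM
        rw [List.mem_range] at hn
        refine (sz_listBool_le _).trans ?_
        have h3 := ha n
        have h4 := eval_mono p (show n ≤ q.eval l by omega)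
        omega)
    rw [List.length_map, List.length_range] at h1 h2
    rw [show 4 * p.eval (q.eval l) + 1 + 1 = 4 * p.eval (q.eval l) + 2 from rfl] at h2
    simp only [Polynomial.eval_add, Polynomial.eval_mul, Polynomial.eval_C, Polynomial.eval_X,
      Polynomial.eval_comp]
    omega
  · intro x
    rw [unpair_pairBits, unbits_bits, mem_lang_iff]
    cases hx : unbits (List (List Bool) × List (List Bool)) x with
    | none => simp
    | some P =>
      have hxP : bits P = x := bits_of_unbits hx
      have hiff : (∃ a_1, some P = some a_1 ∧ GraphIso a_1) ↔ GraphIso P := by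
        constructor
        · rintro ⟨b, hb, h5⟩
          rw [Option.some.inj hb]
          exact h5
        · exact fun h5 => ⟨P, rfl, h5⟩
      rw [hiff]
      simp only [List.cons.injEq, and_true]
      unfold run
      rw [Bool.and_eq_true, decide_eq_true_eq]
      by_cases hv : (valid P.1 && (valid P.2 && decide (P.1.length = P.2.length))) = true
      · obtain ⟨n, G, H, rfl⟩ := valid_pair hv
        have hn : n ≤ x.length := by
          rw [← hxP, bits_length, sz_pair]
          have := length_lt_sz (R671.adjMatrix G)
          rw [length_adjMatrix] at this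
          omega
        have hg : ((List.range (x.length + 1)).map fun n => R671.adjMatrix (X n)).getD
            (R671.adjMatrix G).length [] = R671.adjMatrix (X n) := by
          rw [length_adjMatrix, List.getD_eq_getElem?_getD, List.getElem?_map,
            List.getElem?_range (by omega)]
          rfl
        simp only [hg]
        have hz : zz ((R671.adjMatrix G, R671.adjMatrix H), R671.adjMatrix (X n)) =
            bits (R671.adjMatrix (dsum G (X n)), R671.adjMatrix (dsum H (X n))) := by
          unfold zz
          rw [adjMatrix_dsum, adjMatrix_dsum]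
        rw [hz]
        have hl : (bits (R671.adjMatrix (dsum G (X n)), R671.adjMatrix (dsum H (X n)))).length ≤
            q.eval x.length := by
          rw [bits_length, sz_pair, hqe]
          have h6 := sz_adjMatrix (dsum G (X n))
          have h7 := sz_adjMatrix (dsum H (X n))
          rw [← szP_eval] at h6 h7
          have h8 : n + mP.eval n ≤ x.length + mP.eval x.length :=
            Nat.add_le_add hn (eval_mono _ hn)
          have h9 := eval_mono szP h8
          omega
        have hga : ((List.range (q.eval x.length + 1)).map a).getD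
            (bits (R671.adjMatrix (dsum G (X n)), R671.adjMatrix (dsum H (X n)))).length [] =
            a (bits (R671.adjMatrix (dsum G (X n)), R671.adjMatrix (dsum H (X n)))).length := by
          rw [List.getD_eq_getElem?_getD, List.getElem?_map, List.getElem?_range (by omega)]
          rfl
        rw [hga, ← hVA, graphIso_iff, ← dsum_cancel G H (X n)]
        have h10 : bits (R671.adjMatrix (dsum G (X n)), R671.adjMatrix (dsum H (X n))) ∈ A ↔
            Nonempty (dsum G (X n) ≃g dsum H (X n)) := by
          by_contra hcon
          exact hX n G ⟨_, hcon⟩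
        rw [h10]
        exact ⟨fun h11 => ⟨hv, h11⟩, fun h11 => h11.2⟩
      · constructor
        · intro h5
          exact absurd (valid_of_graphIso h5) hv
        · intro h5
          exact absurd h5.1 hv

end Pool.Agent.U16.GI
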