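import Pool.Agent.U16.GI.Adv
import Pool.Agent.Y645.BT.Defs

/-!
# From rarely wrong algorithms to randomized algorithms
-/

set_option autoImplicit false

namespace Pool.Agent.U16.GI

open Pool.Agent.NPC Pool.Agent.NPC.R671 Pool.Agent.Y815.GI Pool.Agent.Y645.BT

/-! ### Random bits give random graphs -/

section count

variable (m : ℕ)

/-- The graph given by a table of bits. -/
def tabGraph {m : ℕ} (f : Fin m × Fin m → Bool) : SimpleGraph (Fin m) where
  Adj i j := (i < j ∧ f (i, j) = true) ∨ (j < i ∧ f (j, i) = true)
  symm := ⟨fun _ _ h => h.symm⟩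
  loopless := ⟨fun i h => by rcases h with h | h <;> exact absurd h.1 (lt_irrefl i)⟩

open Classical in
/-- A table of bits is a graph and a table of the other bits. -/
noncomputable def tabEquiv : (Fin m × Fin m → Bool) ≃
    SimpleGraph (Fin m) × ({p : Fin m × Fin m // ¬ p.1 < p.2} → Bool) where
  toFun f := (tabGraph f, fun q => f q.1)
  invFun x := fun p => if hp : p.1 < p.2 then decide (x.1.Adj p.1 p.2) else x.2 ⟨p, hp⟩
  left_inv f := by
    funext p
    by_cases hp : p.1 < p.2
    · simp only [hp, dif_pos]
      have h1 : (tabGraph f).Adj p.1 p.2 ↔ f p = true := by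
        show (p.1 < p.2 ∧ f (p.1, p.2) = true) ∨ (p.2 < p.1 ∧ f (p.2, p.1) = true) ↔ _
        constructor
        · rintro (h | h)
          · exact h.2
          · exact absurd h.1 (lt_asymm hp)
        · exact fun h => Or.inl ⟨hp, h⟩
      rw [Bool.eq_iff_iff, decide_eq_true_eq, h1]
    · simp only [hp, dif_neg, not_false_eq_true]
  right_inv x := by
    refine Prod.ext ?_ ?_
    · ext i j
      show (i < j ∧ _) ∨ (j < i ∧ _) ↔ _
      rcases lt_trichotomy i j with h | h | h
      · simp [h, lt_asymm h]
      · subst h
        simp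
      · simp only [h, lt_asymm h, false_and, false_or, true_and, dif_pos, decide_eq_true_eq]
        exact x.1.adj_comm j i
    · funext q
      simp only [dif_neg q.2]

/-- The bit string of a table. -/
def strOf {m : ℕ} (f : Fin m × Fin m → Bool) : List Bool :=
  List.ofFn fun i : Fin (m * m) => f (finProdFinEquiv.symm i)

theorem strOf_inj : Function.Injective (strOf (m := m)) := by
  intro f g h
  have h1 := List.ofFn_injective h
  funext p
  have h2 := congrFun h1 (finProdFinEquiv p)
  simpa using h2

theorem range_strOf (r : List Bool) : r.length = m * m ↔ ∃ f, strOf (m := m) f = r := by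
  constructor
  · intro h
    refine ⟨fun p => r.getD (finProdFinEquiv p) false, ?_⟩
    unfold strOf
    apply List.ext_getElem
    · simp [h]
    · intro i h1 h2
      simp [Nat.mod_add_div, h2]
  · rintro ⟨f, rfl⟩
    simp [strOf]

theorem getD_strOf (f : Fin m × Fin m → Bool) (i j : Fin m) :
    (strOf f).getD (i * m + j) false = f (i, j) := by
  have h1 : ((finProdFinEquiv (i, j) : Fin (m * m)) : ℕ) = i * m + j := by
    simp [finProdFinEquiv, mul_comm, add_comm]
  rw [← h1]
  unfold strOf
  rw [List.getD_eq_getElem?_getD, List.getElem?_ofFn, dif_pos (finProdFinEquiv (i, j)).2,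
    Option.getD_some, Fin.eta, Equiv.symm_apply_apply]

theorem bitGraph_strOf (f : Fin m × Fin m → Bool) :
    bitGraph m (fun i => (strOf f).getD i false) = tabGraph f := by
  ext i j
  show (i < j ∧ _) ∨ (j < i ∧ _) ↔ (i < j ∧ _) ∨ (j < i ∧ _)
  simp only [getD_strOf]

/-- Random bits give a uniformly distributed graph. -/
theorem count_bits (S : Set (SimpleGraph (Fin m))) :
    {r : List Bool | r.length = m * m ∧ bitGraph m (fun i => r.getD i false) ∈ S}.ncard *
      Nat.card (SimpleGraph (Fin m)) = S.ncard * 2 ^ (m * m) := by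
  classical
  have h1 : {r : List Bool | r.length = m * m ∧ bitGraph m (fun i => r.getD i false) ∈ S} =
      strOf '' {f : Fin m × Fin m → Bool | tabGraph f ∈ S} := by
    ext r
    simp only [Set.mem_ofPred_eq, Set.mem_image]
    constructor
    · rintro ⟨h2, h3⟩
      obtain ⟨f, rfl⟩ := (range_strOf m r).1 h2
      rw [bitGraph_strOf] at h3
      exact ⟨f, h3, rfl⟩
    · rintro ⟨f, h2, rfl⟩
      exact ⟨(range_strOf m _).2 ⟨f, rfl⟩, by rw [bitGraph_strOf]; exact h2⟩
  have h2 : {f : Fin m × Fin m → Bool | tabGraph f ∈ S} = tabEquiv m ⁻¹' (S ×ˢ Set.univ) := by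
    ext f
    simp [tabEquiv]
  have h3 : (tabEquiv m ⁻¹' (S ×ˢ Set.univ)).ncard =
      S.ncard * Nat.card ({p : Fin m × Fin m // ¬ p.1 < p.2} → Bool) := by
    rw [← Set.ncard_image_of_injective _ (tabEquiv m).injective,
      Set.image_preimage_eq _ (tabEquiv m).surjective, Set.ncard_prod, Set.ncard_univ]
  have h4 : Nat.card ({p : Fin m × Fin m // ¬ p.1 < p.2} → Bool) *
      Nat.card (SimpleGraph (Fin m)) = 2 ^ (m * m) := by
    rw [mul_comm, ← Nat.card_prod, ← Nat.card_congr (tabEquiv m)]
    simp
  rw [h1, Set.ncard_image_of_injective _ (strOf_inj m), h2, h3, mul_assoc, h4]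

theorem count_all : {r : List Bool | r.length = m * m}.ncard = 2 ^ (m * m) := by
  have h := count_bits m Set.univ
  simp only [Set.mem_univ, and_true, Set.ncard_univ] at h
  have hpos : 0 < Nat.card (SimpleGraph (Fin m)) := Nat.card_pos
  rw [mul_comm] at h
  exact Nat.eq_of_mul_eq_mul_left hpos h

theorem count_good (S : Set (SimpleGraph (Fin m)))
    (hS : S.ncard * 3 ≤ Nat.card (SimpleGraph (Fin m))) (T : Set (List Bool))
    (hT : ∀ r ∈ T, r.length = m * m)
    (hT2 : ∀ r : List Bool, r.length = m * m → bitGraph m (fun i => r.getD i false) ∉ S → r ∈ T) :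
    2 * 2 ^ (m * m) ≤ 3 * T.ncard := by
  have hfin : {r : List Bool | r.length = m * m}.Finite := by
    apply Set.finite_of_ncard_pos
    rw [count_all]
    positivity
  have hTs : T ⊆ {r : List Bool | r.length = m * m} := fun r hr => hT r hr
  have h1 : {r : List Bool | r.length = m * m} ⊆
      T ∪ {r : List Bool | r.length = m * m ∧ bitGraph m (fun i => r.getD i false) ∈ S} := by
    intro r hr
    by_cases h : bitGraph m (fun i => r.getD i false) ∈ S
    · exact Or.inr ⟨hr, h⟩
    · exact Or.inl (hT2 r hr h)
  have h2 := Set.ncard_le_ncard h1 ((hfin.subset hTs).union (hfin.subset fun r hr => hr.1))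
  have h3 := Set.ncard_union_le T
    {r : List Bool | r.length = m * m ∧ bitGraph m (fun i => r.getD i false) ∈ S}
  rw [count_all] at h2
  have h4 := count_bits m S
  have hpos : 0 < Nat.card (SimpleGraph (Fin m)) := Nat.card_pos
  set b := {r : List Bool | r.length = m * m ∧ bitGraph m (fun i => r.getD i false) ∈ S}.ncard
  have h5 : b * 3 ≤ 2 ^ (m * m) := by
    have h6 : b * 3 * Nat.card (SimpleGraph (Fin m)) ≤
        2 ^ (m * m) * Nat.card (SimpleGraph (Fin m)) := by
      calc b * 3 * Nat.card (SimpleGraph (Fin m))
          = (b * Nat.card (SimpleGraph (Fin m))) * 3 := by ring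
        _ = S.ncard * 3 * 2 ^ (m * m) := by rw [h4]; ring
        _ ≤ Nat.card (SimpleGraph (Fin m)) * 2 ^ (m * m) := Nat.mul_le_mul_right _ hS
        _ = _ := by ring
    exact Nat.le_of_mul_le_mul_right h6 hpos
  omega

end count

/-! ### The algorithm -/

/-- The randomized algorithm. -/
def rrun (V : List Bool → List Bool) (mP : Polynomial ℕ)
    (q : (List (List Bool) × List (List Bool)) × List Bool × List Bool) : Bool :=
  (valid q.1.1 && (valid q.1.2 && decide (q.1.1.length = q.1.2.length))) &&
    decide (V (zz (q.1, bm (List.replicate (mP.eval q.2.1.length) ()) q.2.2)) = [true])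

theorem poly_rrun {V : List Bool → List Bool} (hV : PolyTime V) (mP : Polynomial ℕ) :
    Poly (rrun V mP) := by
  have h0 : Poly (fun q : (List (List Bool) × List (List Bool)) × List Bool × List Bool =>
      List.replicate (mP.eval q.2.1.length) ()) :=
    UPoly.eval (UPoly.length (NPC.Poly.fst (NPC.Poly.snd NPC.Poly.id))) mP
  have h1 : Poly (fun q : (List (List Bool) × List (List Bool)) × List Bool × List Bool =>
      bm (List.replicate (mP.eval q.2.1.length) ()) q.2.2) :=
    poly_bm h0 (NPC.Poly.snd (NPC.Poly.snd NPC.Poly.id))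
  have h2 := (Med.poly_of_polyTime hV).comp (poly_zz (NPC.Poly.fst NPC.Poly.id) h1)
  unfold rrun
  refine NPC.Poly.and (by fun_prop) (NPC.Poly.dec_eq h2 (NPC.Poly.const _))

/-- The algorithm on strings. -/
def rV (V : List Bool → List Bool) (mP : Polynomial ℕ) (y : List Bool) : List Bool :=
  [(unbits (List (List Bool) × List (List Bool)) (unpair y).1).elim false
    fun p => rrun V mP (p, unpair y)]

theorem polyTime_rV {V : List Bool → List Bool} (hV : PolyTime V) (mP : Polynomial ℕ) :
    PolyTime (rV V mP) := by
  refine polyTime_of_poly (NPC.Poly.optElim (poly_unbits.comp (NPC.Poly.fst poly_unpair))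
    (NPC.Poly.const _) ?_)
  exact (poly_rrun hV mP).comp (f := fun q : List Bool × (List (List Bool) × List (List Bool)) =>
    (q.2, unpair q.1)) (NPC.Poly.pair (NPC.Poly.snd NPC.Poly.id)
      (poly_unpair.comp (NPC.Poly.fst NPC.Poly.id)))

/-- If random padding is good with probability `2 / 3` then graph isomorphism is in `BPP`. -/
theorem bpp_of_rare {A : Set (List Bool)} (hA : InP A) (mP : Polynomial ℕ)
    (h : ∀ n l, n ≤ l → ∀ G : SimpleGraph (Fin n),
      {X : SimpleGraph (Fin (mP.eval l)) | Errs A (dsum G X)}.ncard * 3 ≤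
        Nat.card (SimpleGraph (Fin (mP.eval l)))) : InBPP (lang GraphIso) := by
  obtain ⟨V, hV, hVA⟩ := hA
  refine ⟨rV V mP, mP * mP, polyTime_rV hV mP, fun x => ?_⟩
  rw [Polynomial.eval_mul]
  have triv : ∀ T : Set (List Bool), T = {r : List Bool | r.length =
      mP.eval x.length * mP.eval x.length} →
      2 * 2 ^ (mP.eval x.length * mP.eval x.length) ≤ 3 * T.ncard := by
    rintro T rfl
    rw [count_all]
    omega
  cases hx : unbits (List (List Bool) × List (List Bool)) x with
  | none =>
    apply triv
    ext r
    simp only [Set.mem_ofPred_eq, and_iff_left_iff_imp]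
    intro _
    unfold rV
    rw [unpair_pairBits, mem_lang_iff, hx]
    simp
  | some P =>
    have hxP : bits P = x := bits_of_unbits hx
    have hiff : x ∈ lang GraphIso ↔ GraphIso P := by
      rw [mem_lang_iff, hx]
      constructor
      · rintro ⟨b, hb, h5⟩
        rw [Option.some.inj hb]
        exact h5
      · exact fun h5 => ⟨P, rfl, h5⟩
    by_cases hv : (valid P.1 && (valid P.2 && decide (P.1.length = P.2.length))) = true
    · obtain ⟨n, G, H, rfl⟩ := valid_pair hv
      have hn : n ≤ x.length := by
        rw [← hxP, bits_length, sz_pair]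
        have := length_lt_sz (R671.adjMatrix G)
        rw [length_adjMatrix] at this
        omega
      refine count_good _ _ (h n x.length hn G) _ (fun r hr => hr.1) fun r hr hrS => ⟨hr, ?_⟩
      rw [hiff, graphIso_iff]
      unfold rV
      rw [unpair_pairBits, hx]
      simp only [Option.elim_some, List.cons.injEq, and_true]
      unfold rrun
      simp only [valid_adj, Bool.true_and, decide_eq_true_eq]
      have h1 : bm (List.replicate (mP.eval x.length) ()) r =
          R671.adjMatrix (bitGraph (mP.eval x.length) fun i => r.getD i false) := by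
        have h2 := adjMatrix_bitGraph (List.replicate (mP.eval x.length) ()) r
        rw [← h2]
        rw [List.length_replicate]
      rw [h1, ← hVA]
      have hz : zz ((R671.adjMatrix G, R671.adjMatrix H),
          R671.adjMatrix (bitGraph (mP.eval x.length) fun i => r.getD i false)) =
          bits (R671.adjMatrix (dsum G (bitGraph (mP.eval x.length) fun i => r.getD i false)),
            R671.adjMatrix (dsum H (bitGraph (mP.eval x.length) fun i => r.getD i false))) := by
        unfold zz
        rw [adjMatrix_dsum, adjMatrix_dsum]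
      rw [hz, ← dsum_cancel G H (bitGraph (mP.eval x.length) fun i => r.getD i false)]
      by_contra hcon
      exact hrS ⟨_, hcon⟩
    · apply triv
      ext r
      simp only [Set.mem_ofPred_eq, and_iff_left_iff_imp]
      intro _
      rw [hiff]
      unfold rV
      rw [unpair_pairBits, hx]
      simp only [Option.elim_some, List.cons.injEq, and_true]
      unfold rrun
      rw [Bool.and_eq_true]
      constructor
      · intro h5
        exact absurd h5.1 hv
      · intro h5
        exact absurd (valid_of_graphIso h5) hv

end Pool.Agent.U16.GI
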