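import Pool.Agent.U16.GI.Bpp

/-!
# From rarely wrong randomized algorithms to randomized algorithms
-/

set_option autoImplicit false

namespace Pool.Agent.U16.GI

open Finset Pool.Agent.NPC Pool.Agent.NPC.R671 Pool.Agent.Y815.GI Pool.Agent.Y645.BT

/-! ### Counting bit strings -/

open Classical in
/-- The number of strings of length `K` with a property. -/
noncomputable def cntS (K : ℕ) (P : List Bool → Prop) : ℕ :=
  (univ.filter fun v : Fin K → Bool => P (List.ofFn v)).card

theorem ncard_eq_cntS (K : ℕ) (P : List Bool → Prop) :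
    {r : List Bool | r.length = K ∧ P r}.ncard = cntS K P := by
  classical
  have h1 : {r : List Bool | r.length = K ∧ P r} =
      List.ofFn '' {v : Fin K → Bool | P (List.ofFn v)} := by
    ext r
    simp only [Set.mem_ofPred_eq, Set.mem_image]
    constructor
    · rintro ⟨rfl, h⟩
      refine ⟨r.get, ?_, List.ofFn_get r⟩
      rw [List.ofFn_get]
      exact h
    · rintro ⟨v, h, rfl⟩
      exact ⟨List.length_ofFn, h⟩
  rw [h1, Set.ncard_image_of_injective _ List.ofFn_injective]
  unfold cntS
  rw [← Set.ncard_coe_finset]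
  congr 1
  ext v
  simp

open Classical in
theorem cntS_append (a b : ℕ) (P : List Bool → Prop) :
    cntS (a + b) P = ∑ u : Fin a → Bool, cntS b fun w => P (List.ofFn u ++ w) := by
  unfold cntS
  simp only [Finset.card_filter]
  rw [← Fintype.sum_prod_type', ← Equiv.sum_comp (Fin.appendEquiv a b)]
  refine Finset.sum_congr rfl fun x _ => ?_
  rw [← List.ofFn_fin_append]
  rfl

theorem cntS_mono {K : ℕ} {P Q : List Bool → Prop} (h : ∀ v, v.length = K → P v → Q v) :
    cntS K P ≤ cntS K Q := by
  classical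
  unfold cntS
  refine Finset.card_le_card fun v hv => ?_
  rw [mem_filter] at hv ⊢
  exact ⟨hv.1, h _ List.length_ofFn hv.2⟩

theorem cntS_true (K : ℕ) : cntS K (fun _ => True) = 2 ^ K := by
  classical
  unfold cntS
  simp

open Classical in
theorem cntS_take (L d : ℕ) (P : List Bool → Prop) :
    cntS (L + d) (fun v => P (v.take L)) = cntS L P * 2 ^ d := by
  rw [cntS_append]
  have h1 : ∀ u : Fin L → Bool, cntS d (fun w => P ((List.ofFn u ++ w).take L)) =
      if P (List.ofFn u) then 2 ^ d else 0 := by
    intro u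
    have h2 : ∀ w : List Bool, (List.ofFn u ++ w).take L = List.ofFn u := by
      intro w
      rw [List.take_left' List.length_ofFn]
    simp only [h2]
    split_ifs with h
    · simp only [h, cntS_true]
    · unfold cntS
      simp [h]
  simp only [h1]
  rw [← Finset.sum_filter, Finset.sum_const, smul_eq_mul]
  rfl

theorem maj_arith (g T : ℕ) (hgle : g ≤ T) (hP : 2 * T ≤ 3 * g) :
    20 * (T * (T * T)) ≤ 27 * (g * (g * T + (T - g) * g) + (T - g) * (g * g + (T - g) * 0)) := by
  obtain ⟨d, rfl⟩ : ∃ d, T = g + d := ⟨T - g, by omega⟩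
  have h9 : g + d - g = d := by omega
  rw [h9]
  obtain ⟨e, rfl⟩ : ∃ e, g = 2 * d + e := ⟨g - 2 * d, by omega⟩
  zify
  have hd0 : (0 : ℤ) ≤ d := Int.natCast_nonneg d
  have he0 : (0 : ℤ) ≤ e := Int.natCast_nonneg e
  have hde : (0 : ℤ) ≤ d * e := mul_nonneg hd0 he0
  have h11 : (0 : ℤ) ≤ d * d * e := mul_nonneg (mul_nonneg hd0 hd0) he0
  have h12 : (0 : ℤ) ≤ d * e * e := mul_nonneg hde he0
  have h13 : (0 : ℤ) ≤ (e : ℤ) * e * e := mul_nonneg (mul_nonneg he0 he0) he0
  have h14 : (0 : ℤ) ≤ (d : ℤ) * d * d := mul_nonneg (mul_nonneg hd0 hd0) hd0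
  nlinarith

open Classical in
/-- Majority of three. -/
theorem cntS_maj (K : ℕ) (P : List Bool → Prop) (hP : 2 * 2 ^ K ≤ 3 * cntS K P) :
    20 * 2 ^ (K + (K + K)) ≤ 27 * cntS (K + (K + K)) (fun v =>
      (P (v.take K) ∧ P ((v.drop K).take K)) ∨ (P (v.take K) ∧ P (v.drop (K + K))) ∨
        (P ((v.drop K).take K) ∧ P (v.drop (K + K)))) := by
  set g := cntS K P with hg
  have h1 : ∀ a b : Fin K → Bool, ∀ w : List Bool,
      (List.ofFn a ++ (List.ofFn b ++ w)).take K = List.ofFn a ∧
      ((List.ofFn a ++ (List.ofFn b ++ w)).drop K).take K = List.ofFn b ∧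
      (List.ofFn a ++ (List.ofFn b ++ w)).drop (K + K) = w := by
    intro a b w
    refine ⟨List.take_left' List.length_ofFn, ?_, ?_⟩
    · rw [List.drop_left' List.length_ofFn, List.take_left' List.length_ofFn]
    · rw [← List.drop_drop, List.drop_left' List.length_ofFn, List.drop_left' List.length_ofFn]
  rw [cntS_append]
  have h2 : ∀ a : Fin K → Bool, cntS (K + K) (fun w =>
      (P ((List.ofFn a ++ w).take K) ∧ P (((List.ofFn a ++ w).drop K).take K)) ∨
      (P ((List.ofFn a ++ w).take K) ∧ P ((List.ofFn a ++ w).drop (K + K))) ∨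
        (P (((List.ofFn a ++ w).drop K).take K) ∧ P ((List.ofFn a ++ w).drop (K + K)))) =
      ∑ b : Fin K → Bool, cntS K (fun w => (P (List.ofFn a) ∧ P (List.ofFn b)) ∨
        (P (List.ofFn a) ∧ P w) ∨ (P (List.ofFn b) ∧ P w)) := by
    intro a
    rw [cntS_append]
    refine Finset.sum_congr rfl fun b _ => ?_
    congr 1
    funext w
    obtain ⟨e1, e2, e3⟩ := h1 a b w
    rw [e1, e2, e3]
  simp only [h2]
  have h3 : ∀ a b : Fin K → Bool, cntS K (fun w => (P (List.ofFn a) ∧ P (List.ofFn b)) ∨
        (P (List.ofFn a) ∧ P w) ∨ (P (List.ofFn b) ∧ P w)) =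
      if P (List.ofFn a) then (if P (List.ofFn b) then 2 ^ K else g)
        else (if P (List.ofFn b) then g else 0) := by
    intro a b
    by_cases ha : P (List.ofFn a) <;> by_cases hb : P (List.ofFn b)
    · simp only [ha, hb, and_self, true_or, cntS_true, if_true]
    · simp only [ha, hb, and_false, true_and, false_and, or_false, false_or, if_true, if_false]
      rfl
    · simp only [ha, hb, and_true, true_and, false_and, false_or, if_true, if_false]
      rfl
    · simp only [ha, hb, false_and, or_false, if_false]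
      unfold cntS
      simp
  simp only [h3]
  have hsum : ∀ x y : ℕ, ∑ b : Fin K → Bool, (if P (List.ofFn b) then x else y) =
      g * x + (2 ^ K - g) * y := by
    intro x y
    rw [Finset.sum_ite, Finset.sum_const, Finset.sum_const, smul_eq_mul, smul_eq_mul]
    have h4 : (univ.filter fun b : Fin K → Bool => P (List.ofFn b)).card = g := rfl
    have h5 := Finset.card_filter_add_card_filter_not (s := (univ : Finset (Fin K → Bool)))
      (fun b : Fin K → Bool => P (List.ofFn b))
    have h6 : (univ : Finset (Fin K → Bool)).card = 2 ^ K := by simp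
    rw [h4, h6] at h5
    have h7 : (univ.filter fun b : Fin K → Bool => ¬ P (List.ofFn b)).card = 2 ^ K - g := by
      omega
    rw [h4, h7]
  have h8 : ∀ a : Fin K → Bool, ∑ b : Fin K → Bool,
      (if P (List.ofFn a) then (if P (List.ofFn b) then 2 ^ K else g)
        else (if P (List.ofFn b) then g else 0)) =
      if P (List.ofFn a) then g * 2 ^ K + (2 ^ K - g) * g else g * g + (2 ^ K - g) * 0 := by
    intro a
    by_cases ha : P (List.ofFn a)
    · simp only [ha, if_true]
      exact hsum _ _
    · simp only [ha, if_false]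
      exact hsum _ _
  simp only [h8]
  rw [hsum]
  have hgle : g ≤ 2 ^ K := by
    rw [hg, ← cntS_true K]
    exact cntS_mono fun _ _ _ => trivial
  rw [pow_add, pow_add]
  exact maj_arith g (2 ^ K) hgle hP

end Pool.Agent.U16.GI
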