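import Pool.Agent.U16.GI.Bpp2

/-!
# From rarely wrong randomized algorithms to randomized algorithms: the algorithm
-/

set_option autoImplicit false

namespace Pool.Agent.U16.GI

open Finset Pool.Agent.NPC Pool.Agent.NPC.R671 Pool.Agent.Y815.GI Pool.Agent.Y645.BT

/-- A block of the random string. -/
def blk (s : List Bool) (o : ℕ) (l : List Unit) : List Bool :=
  (List.range l.length).map fun j => s.getD (o + j) false

theorem blk_eq {s b : List Bool} {o : ℕ} {l : List Unit} (hb : l.length ≤ b.length)
    (h : ∀ j, j < l.length → s.getD (o + j) false = b.getD j false) :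
    blk s o l = b.take l.length := by
  unfold blk
  apply List.ext_getElem
  · simp [hb]
  · intro j h1 h2
    rw [List.length_map, List.length_range] at h1
    rw [List.getElem_map, List.getElem_range, List.getElem_take, h j h1,
      List.getD_eq_getElem?_getD, List.getElem?_eq_getElem (by omega)]
    rfl

/-- Majority of three. -/
def maj (a b c : Bool) : Bool := (a && b) || ((a && c) || (b && c))

/-- The vote of a block. -/
def vote (V : List Bool → List Bool) (z : List Bool) (r : List Bool) : Bool :=
  decide (V (pairBits z r) = [true])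

/-- The input for the given algorithm and the random string. -/
def core (V : List Bool → List Bool) (ρ : Polynomial ℕ) (z s : List Bool) (a K : ℕ) : Bool :=
  maj (vote V z (blk s a (List.replicate (ρ.eval z.length) ())))
    (vote V z (blk s (a + K) (List.replicate (ρ.eval z.length) ())))
    (vote V z (blk s (a + K + K) (List.replicate (ρ.eval z.length) ())))

/-- The randomized algorithm. -/
def rrun3 (V : List Bool → List Bool) (ρ σ mP : Polynomial ℕ)
    (q : (List (List Bool) × List (List Bool)) × List Bool × List Bool) : Bool :=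
  (valid q.1.1 && (valid q.1.2 && decide (q.1.1.length = q.1.2.length))) &&
    core V ρ (zz (q.1, bm (List.replicate (mP.eval q.2.1.length) ()) q.2.2)) q.2.2
      (mP.eval q.2.1.length * mP.eval q.2.1.length) (σ.eval q.2.1.length)

section poly

variable {α : Type} [TEnc α]

theorem poly_vote {V : List Bool → List Bool} (hV : PolyTime V) {z r : α → List Bool}
    (hz : Poly z) (hr : Poly r) : Poly (fun a => vote V (z a) (r a)) := by
  unfold vote
  exact NPC.Poly.dec_eq ((Med.poly_of_polyTime hV).comp (Med.poly_pairBits hz hr))
    (NPC.Poly.const _)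

theorem poly_blk {s : α → List Bool} {o : α → ℕ} {l : α → List Unit} (hs : Poly s) (ho : Poly o)
    (hl : Poly l) : Poly (fun a => blk (s a) (o a) (l a)) := by
  unfold blk
  refine NPC.Poly.map (NPC.Poly.range_length hl) ?_
  fun_prop

theorem poly_core {V : List Bool → List Bool} (hV : PolyTime V) (ρ : Polynomial ℕ)
    {z s : α → List Bool} {o K : α → ℕ} (hz : Poly z) (hs : Poly s) (ho : Poly o) (hK : Poly K) :
    Poly (fun a => core V ρ (z a) (s a) (o a) (K a)) := by
  have hl : Poly (fun a => List.replicate (ρ.eval (z a).length) ()) :=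
    UPoly.eval (UPoly.length hz) ρ
  unfold core maj
  have h1 := poly_vote hV hz (poly_blk hs ho hl)
  have h2 := poly_vote hV hz (poly_blk hs (NPC.Poly.add ho hK) hl)
  have h3 := poly_vote hV hz (poly_blk hs (NPC.Poly.add (NPC.Poly.add ho hK) hK) hl)
  exact NPC.Poly.or (NPC.Poly.and h1 h2) (NPC.Poly.or (NPC.Poly.and h1 h3) (NPC.Poly.and h2 h3))

theorem poly_rrun3 {V : List Bool → List Bool} (hV : PolyTime V) (ρ σ mP : Polynomial ℕ) :
    Poly (rrun3 V ρ σ mP) := by
  have hx : Poly (fun q : (List (List Bool) × List (List Bool)) × List Bool × List Bool =>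
      q.2.1) := NPC.Poly.fst (NPC.Poly.snd NPC.Poly.id)
  have h0 : Poly (fun q : (List (List Bool) × List (List Bool)) × List Bool × List Bool =>
      List.replicate (mP.eval q.2.1.length) ()) := UPoly.eval (UPoly.length hx) mP
  have h1 : Poly (fun q : (List (List Bool) × List (List Bool)) × List Bool × List Bool =>
      bm (List.replicate (mP.eval q.2.1.length) ()) q.2.2) :=
    poly_bm h0 (NPC.Poly.snd (NPC.Poly.snd NPC.Poly.id))
  have h2 := poly_zz (NPC.Poly.fst (NPC.Poly.id
    (α := (List (List Bool) × List (List Bool)) × List Bool × List Bool))) h1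
  have h3 : Poly (fun q : (List (List Bool) × List (List Bool)) × List Bool × List Bool =>
      mP.eval q.2.1.length) := (UPoly.eval (UPoly.length hx) mP).toPoly
  have h4 : Poly (fun q : (List (List Bool) × List (List Bool)) × List Bool × List Bool =>
      σ.eval q.2.1.length) := (UPoly.eval (UPoly.length hx) σ).toPoly
  unfold rrun3
  exact NPC.Poly.and (by fun_prop)
    (poly_core hV ρ h2 (NPC.Poly.snd (NPC.Poly.snd NPC.Poly.id)) (NPC.Poly.mul h3 h3) h4)

/-- The algorithm on strings. -/
def rV3 (V : List Bool → List Bool) (ρ σ mP : Polynomial ℕ) (y : List Bool) : List Bool :=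
  [(unbits (List (List Bool) × List (List Bool)) (unpair y).1).elim false
    fun p => rrun3 V ρ σ mP (p, unpair y)]

theorem polyTime_rV3 {V : List Bool → List Bool} (hV : PolyTime V) (ρ σ mP : Polynomial ℕ) :
    PolyTime (rV3 V ρ σ mP) := by
  refine polyTime_of_poly (NPC.Poly.optElim (poly_unbits.comp (NPC.Poly.fst poly_unpair))
    (NPC.Poly.const _) ?_)
  exact (poly_rrun3 hV ρ σ mP).comp
    (f := fun q : List Bool × (List (List Bool) × List (List Bool)) =>
    (q.2, unpair q.1)) (NPC.Poly.pair (NPC.Poly.snd NPC.Poly.id)
      (poly_unpair.comp (NPC.Poly.fst NPC.Poly.id)))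

end poly

theorem maj_iff {a b c : Bool} {P : Prop} (h : ((a = true ↔ P) ∧ (b = true ↔ P)) ∨
    ((a = true ↔ P) ∧ (c = true ↔ P)) ∨ ((b = true ↔ P) ∧ (c = true ↔ P))) :
    maj a b c = true ↔ P := by
  unfold maj
  by_cases hP : P <;> simp only [hP, iff_true, iff_false, Bool.not_eq_true] at h ⊢ <;>
    rcases h with h | h | h <;> simp [h.1, h.2]

/-- The votes of the three blocks. -/
theorem core_iff {V : List Bool → List Bool} {ρ : Polynomial ℕ} {z u v : List Bool} {a K : ℕ}
    (hu : u.length = a) (hv : v.length = K + (K + K)) (hL : ρ.eval z.length ≤ K) {P : Prop}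
    (h : ((V (pairBits z ((v.take K).take (ρ.eval z.length))) = [true] ↔ P) ∧
        (V (pairBits z (((v.drop K).take K).take (ρ.eval z.length))) = [true] ↔ P)) ∨
      ((V (pairBits z ((v.take K).take (ρ.eval z.length))) = [true] ↔ P) ∧
        (V (pairBits z ((v.drop (K + K)).take (ρ.eval z.length))) = [true] ↔ P)) ∨
      ((V (pairBits z (((v.drop K).take K).take (ρ.eval z.length))) = [true] ↔ P) ∧
        (V (pairBits z ((v.drop (K + K)).take (ρ.eval z.length))) = [true] ↔ P))) :
    core V ρ z (u ++ v) a K = true ↔ P := by
  have hget : ∀ j, (u ++ v).getD (a + j) false = v.getD j false := by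
    intro j
    rw [List.getD_eq_getElem?_getD, List.getD_eq_getElem?_getD, ← hu,
      List.getElem?_append_right (by omega)]
    congr 2
    omega
  have e1 : blk (u ++ v) a (List.replicate (ρ.eval z.length) ()) =
      (v.take K).take (ρ.eval z.length) := by
    have := blk_eq (s := u ++ v) (b := v.take K) (o := a)
      (l := List.replicate (ρ.eval z.length) ()) (by simp; omega) (by
        intro j hj
        rw [List.length_replicate] at hj
        rw [hget, List.getD_eq_getElem?_getD, List.getD_eq_getElem?_getD,
          List.getElem?_take_of_lt (by omega)])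
    rwa [List.length_replicate] at this
  have e2 : blk (u ++ v) (a + K) (List.replicate (ρ.eval z.length) ()) =
      ((v.drop K).take K).take (ρ.eval z.length) := by
    have := blk_eq (s := u ++ v) (b := (v.drop K).take K) (o := a + K)
      (l := List.replicate (ρ.eval z.length) ()) (by simp; omega) (by
        intro j hj
        rw [List.length_replicate] at hj
        rw [add_assoc, hget, List.getD_eq_getElem?_getD, List.getD_eq_getElem?_getD,
          List.getElem?_take_of_lt (by omega), List.getElem?_drop])
    rwa [List.length_replicate] at this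
  have e3 : blk (u ++ v) (a + K + K) (List.replicate (ρ.eval z.length) ()) =
      (v.drop (K + K)).take (ρ.eval z.length) := by
    have := blk_eq (s := u ++ v) (b := v.drop (K + K)) (o := a + K + K)
      (l := List.replicate (ρ.eval z.length) ()) (by simp; omega) (by
        intro j hj
        rw [List.length_replicate] at hj
        rw [add_assoc a K K, add_assoc, hget, List.getD_eq_getElem?_getD,
          List.getD_eq_getElem?_getD, List.getElem?_drop])
    rwa [List.length_replicate] at this
  unfold core
  rw [e1, e2, e3]
  refine maj_iff ?_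
  unfold vote
  simpa only [decide_eq_true_eq] using h

/-- The part of a random string that determines the padding graph. -/
theorem bitGraph_append (m : ℕ) {u v : List Bool} (hu : u.length = m * m) :
    bitGraph m (fun i => (u ++ v).getD i false) = bitGraph m fun i => u.getD i false := by
  have key : ∀ i j : Fin m, (u ++ v).getD (i * m + j) false = u.getD (i * m + j) false := by
    intro i j
    have h1 : (i : ℕ) * m + j < u.length := by
      rw [hu]
      have h2 := i.2
      have h3 := j.2
      calc (i : ℕ) * m + j < i * m + m := by omega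
        _ = (i + 1) * m := by ring
        _ ≤ m * m := Nat.mul_le_mul_right _ h2
    rw [List.getD_eq_getElem?_getD, List.getD_eq_getElem?_getD, List.getElem?_append_left h1]
  ext i j
  show (i < j ∧ _) ∨ (j < i ∧ _) ↔ (i < j ∧ _) ∨ (j < i ∧ _)
  simp only [key]

open Classical in
/-- Combination of a good prefix and a good rest. -/
theorem cntS_comb (m b : ℕ) (S : Set (SimpleGraph (Fin m)))
    (hS : S.ncard * 16 ≤ Nat.card (SimpleGraph (Fin m))) (Q : List Bool → Prop)
    (h : ∀ u : List Bool, u.length = m * m → bitGraph m (fun i => u.getD i false) ∉ S →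
      20 * 2 ^ b ≤ 27 * cntS b fun w => Q (u ++ w)) :
    2 * 2 ^ (m * m + b) ≤ 3 * cntS (m * m + b) Q := by
  have h1 := count_bits m S
  rw [ncard_eq_cntS] at h1
  have hpos : 0 < Nat.card (SimpleGraph (Fin m)) := Nat.card_pos
  have hbad : cntS (m * m) (fun u => bitGraph m (fun i => u.getD i false) ∈ S) * 16 ≤
      2 ^ (m * m) := by
    have h6 : cntS (m * m) (fun u => bitGraph m (fun i => u.getD i false) ∈ S) * 16 *
        Nat.card (SimpleGraph (Fin m)) ≤ 2 ^ (m * m) * Nat.card (SimpleGraph (Fin m)) := by
      calc _ = (cntS (m * m) (fun u => bitGraph m (fun i => u.getD i false) ∈ S) *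
            Nat.card (SimpleGraph (Fin m))) * 16 := by ring
        _ = S.ncard * 16 * 2 ^ (m * m) := by rw [h1]; ring
        _ ≤ Nat.card (SimpleGraph (Fin m)) * 2 ^ (m * m) := Nat.mul_le_mul_right _ hS
        _ = _ := by ring
    exact Nat.le_of_mul_le_mul_right h6 hpos
  have hsplit : cntS (m * m) (fun u => bitGraph m (fun i => u.getD i false) ∈ S) +
      cntS (m * m) (fun u => ¬ bitGraph m (fun i => u.getD i false) ∈ S) = 2 ^ (m * m) := by
    unfold cntS
    have h5 := Finset.card_filter_add_card_filter_not
      (s := (univ : Finset (Fin (m * m) → Bool)))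
      (fun u : Fin (m * m) → Bool => bitGraph m (fun i => (List.ofFn u).getD i false) ∈ S)
    have h6 : (univ : Finset (Fin (m * m) → Bool)).card = 2 ^ (m * m) := by simp
    rw [h6] at h5
    convert h5 using 2
    congr!
  have hgood : cntS (m * m) (fun u => ¬ bitGraph m (fun i => u.getD i false) ∈ S) *
      (20 * 2 ^ b) ≤ 27 * cntS (m * m + b) Q := by
    rw [cntS_append, Finset.mul_sum]
    have h7 : ∀ u : Fin (m * m) → Bool,
        (if ¬ bitGraph m (fun i => (List.ofFn u).getD i false) ∈ S then 20 * 2 ^ b else 0) ≤
        27 * cntS b (fun w => Q (List.ofFn u ++ w)) := by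
      intro u
      by_cases h8 : bitGraph m (fun i => (List.ofFn u).getD i false) ∈ S
      · rw [if_neg (not_not_intro h8)]
        exact Nat.zero_le _
      · rw [if_pos h8]
        exact h _ List.length_ofFn h8
    refine le_trans (le_of_eq ?_) (Finset.sum_le_sum fun u _ => h7 u)
    rw [← Finset.sum_filter, Finset.sum_const, smul_eq_mul]
    unfold cntS
    congr!
  set g := cntS (m * m) (fun u => ¬ bitGraph m (fun i => u.getD i false) ∈ S) with hg
  set B := cntS (m * m) (fun u => bitGraph m (fun i => u.getD i false) ∈ S) with hB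
  rw [pow_add]
  have h9 : 15 * 2 ^ (m * m) ≤ 16 * g := by omega
  have h10 : 15 * 2 ^ (m * m) * (20 * 2 ^ b) ≤ 16 * (27 * cntS (m * m + b) Q) := by
    calc 15 * 2 ^ (m * m) * (20 * 2 ^ b) ≤ 16 * g * (20 * 2 ^ b) := Nat.mul_le_mul_right _ h9
      _ = 16 * (g * (20 * 2 ^ b)) := by ring
      _ ≤ _ := Nat.mul_le_mul_left _ hgood
  have h11 : 15 * 2 ^ (m * m) * (20 * 2 ^ b) = 300 * (2 ^ (m * m) * 2 ^ b) := by ring
  rw [h11] at h10
  omega

/-- If random padding is good with high probability then graph isomorphism is in `BPP`. -/
theorem bpp_of_rare3 {A : Set (List Bool)} (hA : InBPP A) (mP : Polynomial ℕ)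
    (h : ∀ n l, n ≤ l → ∀ G : SimpleGraph (Fin n),
      {X : SimpleGraph (Fin (mP.eval l)) | Errs A (dsum G X)}.ncard * 16 ≤
        Nat.card (SimpleGraph (Fin (mP.eval l)))) : InBPP (lang GraphIso) := by
  obtain ⟨V, ρ, hV, hVA⟩ := hA
  set q : Polynomial ℕ := Polynomial.C 2 * szP.comp (Polynomial.X + mP) + Polynomial.C 1 with hq
  have hqe : ∀ l, q.eval l = 2 * szP.eval (l + mP.eval l) + 1 := by
    intro l
    simp [hq]
  set σ : Polynomial ℕ := ρ.comp q with hσ
  refine ⟨rV3 V ρ σ mP, mP * mP + (σ + (σ + σ)), polyTime_rV3 hV ρ σ mP, fun x => ?_⟩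
  rw [Polynomial.eval_add, Polynomial.eval_mul, Polynomial.eval_add, Polynomial.eval_add,
    ncard_eq_cntS]
  set m : ℕ := mP.eval x.length with hm
  set K : ℕ := σ.eval x.length with hK
  have triv : ∀ P : List Bool → Prop, (∀ r, P r) →
      2 * 2 ^ (m * m + (K + (K + K))) ≤ 3 * cntS (m * m + (K + (K + K))) P := by
    intro P hP
    have h1 := cntS_mono (K := m * m + (K + (K + K))) (P := fun _ => True) (Q := P)
      fun v _ _ => hP v
    rw [cntS_true] at h1
    omega
  cases hx : unbits (List (List Bool) × List (List Bool)) x with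
  | none =>
    apply triv
    intro r
    unfold rV3
    rw [unpair_pairBits, mem_lang_iff, hx]
    simp
  | some P =>
    have hxP : bits P = x := bits_of_unbits hx
    have hiff : x ∈ lang GraphIso ↔ GraphIso P := by
      rw [mem_lang_iff, hx]
      constructor
      · rintro ⟨b, hb, h5⟩
        rw [Option.some.inj hb]
        exact h5
      · exact fun h5 => ⟨P, rfl, h5⟩
    by_cases hv : (valid P.1 && (valid P.2 && decide (P.1.length = P.2.length))) = true
    · obtain ⟨n, G, H, rfl⟩ := valid_pair hv
      have hn : n ≤ x.length := by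
        rw [← hxP, bits_length, sz_pair]
        have := length_lt_sz (R671.adjMatrix G)
        rw [length_adjMatrix] at this
        omega
      refine cntS_comb m _ _ (h n x.length hn G) _ fun u hu hS => ?_
      set X : SimpleGraph (Fin m) := bitGraph m fun i => u.getD i false with hX
      set z : List Bool := bits (R671.adjMatrix (dsum G X), R671.adjMatrix (dsum H X)) with hz
      have hzl : z.length ≤ q.eval x.length := by
        rw [hz, bits_length, sz_pair, hqe, ← hm]
        have h6 := sz_adjMatrix (dsum G X)
        have h7 := sz_adjMatrix (dsum H X)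
        rw [← szP_eval] at h6 h7
        have h9 := eval_mono szP (show n + m ≤ x.length + m by omega)
        omega
      have hL : ρ.eval z.length ≤ K := by
        rw [hK, hσ, Polynomial.eval_comp]
        exact eval_mono _ hzl
      obtain ⟨d, hd⟩ : ∃ d, K = ρ.eval z.length + d := ⟨K - ρ.eval z.length, by omega⟩
      have hbl : 2 * 2 ^ K ≤ 3 * cntS K (fun b =>
          (V (pairBits z (b.take (ρ.eval z.length))) = [true] ↔ z ∈ A)) := by
        have h1 := hVA z
        rw [ncard_eq_cntS] at h1
        rw [hd, cntS_take (ρ.eval z.length) d fun b => (V (pairBits z b) = [true] ↔ z ∈ A),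
          pow_add]
        calc 2 * (2 ^ ρ.eval z.length * 2 ^ d) = 2 * 2 ^ ρ.eval z.length * 2 ^ d := by ring
          _ ≤ 3 * cntS (ρ.eval z.length) (fun b => (V (pairBits z b) = [true] ↔ z ∈ A)) * 2 ^ d :=
            Nat.mul_le_mul_right _ h1
          _ = _ := by ring
      refine (cntS_maj K _ hbl).trans (Nat.mul_le_mul_left _ (cntS_mono fun v hvl hmaj => ?_))
      rw [hiff, graphIso_iff]
      unfold rV3
      rw [unpair_pairBits, hx]
      simp only [Option.elim_some, List.cons.injEq, and_true]
      unfold rrun3
      simp only [valid_adj, Bool.true_and]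
      have h1 : bm (List.replicate m ()) (u ++ v) = R671.adjMatrix X := by
        have h2 := adjMatrix_bitGraph (List.replicate m ()) (u ++ v)
        rw [← h2]
        rw [List.length_replicate, bitGraph_append m hu]
      have h2 : zz ((R671.adjMatrix G, R671.adjMatrix H), bm (List.replicate m ()) (u ++ v)) =
          z := by
        unfold zz
        rw [h1, hz, adjMatrix_dsum, adjMatrix_dsum]
      rw [← hm, ← hK, h2]
      have h3 : z ∈ A ↔ Nonempty (G ≃g H) := by
        rw [← dsum_cancel G H X]
        by_contra hcon
        exact hS ⟨_, hcon⟩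
      rw [← h3]
      exact core_iff hu hvl hL hmaj
    · apply triv
      intro r
      rw [hiff]
      unfold rV3
      rw [unpair_pairBits, hx]
      simp only [Option.elim_some, List.cons.injEq, and_true]
      unfold rrun3
      rw [Bool.and_eq_true]
      constructor
      · intro h5
        exact absurd h5.1 hv
      · intro h5
        exact absurd (valid_of_graphIso h5) hv

end Pool.Agent.U16.GI
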