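import Mathlib

/-!
# Cancellation of disjoint unions of graphs
-/

set_option autoImplicit false

namespace Pool.Agent.U16.GI

open SimpleGraph

section

variable {A B C : Type} {G : SimpleGraph A} {H : SimpleGraph B} {K : SimpleGraph C}

/-- One step of the chase. -/
def chase (φ : A ⊕ C → B ⊕ C) : B ⊕ C → B ⊕ C
  | Sum.inl b => Sum.inl b
  | Sum.inr c => φ (Sum.inr c)

theorem chase_inl (φ : A ⊕ C → B ⊕ C) (n : ℕ) (b : B) :
    (chase φ)^[n] (Sum.inl b) = Sum.inl b := by
  induction n with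
  | zero => rfl
  | succ n ih => rw [Function.iterate_succ_apply]; exact ih

theorem chase_mono (φ : A ⊕ C → B ⊕ C) {n m : ℕ} (h : n ≤ m) {x : B ⊕ C} {b : B}
    (hb : (chase φ)^[n] x = Sum.inl b) : (chase φ)^[m] x = Sum.inl b := by
  obtain ⟨d, rfl⟩ := Nat.exists_eq_add_of_le h
  rw [add_comm, Function.iterate_add_apply, hb, chase_inl]

/-- The chase leaves `C`. -/
theorem chase_exit [Finite C] (φ : A ⊕ C ≃ B ⊕ C) (a : A) :
    ∃ n b, (chase φ)^[n] (φ (Sum.inl a)) = Sum.inl b := by
  by_contra hcon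
  push Not at hcon
  have h1 : ∀ n, ∃ c, (chase φ)^[n] (φ (Sum.inl a)) = Sum.inr c := by
    intro n
    rcases h : (chase φ)^[n] (φ (Sum.inl a)) with b | c
    · exact absurd h (hcon n b)
    · exact ⟨c, rfl⟩
  choose c hc using h1
  have hstep : ∀ n, φ (Sum.inr (c n)) = Sum.inr (c (n + 1)) := by
    intro n
    have h2 := hc (n + 1)
    rw [Function.iterate_succ_apply', hc n] at h2
    exact h2
  have h0 : φ (Sum.inl a) = Sum.inr (c 0) := hc 0
  have hne : ∀ i j, i < j → c i ≠ c j := by
    intro i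
    induction i with
    | zero =>
      intro j hj h
      obtain ⟨j, rfl⟩ := Nat.exists_eq_succ_of_ne_zero (by omega : j ≠ 0)
      have h2 : φ (Sum.inl a) = φ (Sum.inr (c j)) := by
        rw [h0, hstep j, h]
      exact Sum.inl_ne_inr (φ.injective h2)
    | succ i ih =>
      intro j hj h
      obtain ⟨j, rfl⟩ := Nat.exists_eq_succ_of_ne_zero (by omega : j ≠ 0)
      have h2 : φ (Sum.inr (c i)) = φ (Sum.inr (c j)) := by
        rw [hstep i, hstep j, h]
      exact ih j (by omega) (Sum.inr_injective (φ.injective h2))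
  obtain ⟨i, j, hij, h⟩ := Finite.exists_ne_map_eq_of_infinite c
  rcases lt_or_gt_of_ne hij with h2 | h2
  · exact hne i j h2 h
  · exact hne j i h2 h.symm

/-- The chase can be reversed. -/
theorem chase_rev (φ : A ⊕ C ≃ B ⊕ C) (n : ℕ) : ∀ (x : A ⊕ C) (b : B),
    (chase φ)^[n] (φ x) = Sum.inl b → ∃ j, (chase φ.symm)^[j] (φ.symm (Sum.inl b)) = x := by
  induction n with
  | zero =>
    intro x b h
    have h2 : φ x = Sum.inl b := h
    exact ⟨0, by rw [← h2]; exact φ.symm_apply_apply x⟩
  | succ n ih =>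
    intro x b h
    rw [Function.iterate_succ_apply] at h
    rcases hx : φ x with b' | c
    · rw [hx] at h
      have h3 : (chase φ)^[n] (Sum.inl b') = Sum.inl b := h
      rw [chase_inl] at h3
      refine ⟨0, ?_⟩
      rw [← h3, ← hx]
      exact φ.symm_apply_apply x
    · rw [hx] at h
      obtain ⟨j, hj⟩ := ih (Sum.inr c) b h
      refine ⟨j + 1, ?_⟩
      rw [Function.iterate_succ_apply', hj]
      show φ.symm (Sum.inr c) = x
      rw [← hx]
      exact φ.symm_apply_apply x

/-- Isomorphisms of disjoint unions with the same finite graph give isomorphisms. -/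
theorem cancel_sum [Finite C] (φ : G ⊕g K ≃g H ⊕g K) : Nonempty (G ≃g H) := by
  have key : ∀ {A B : Type} {G : SimpleGraph A} {H : SimpleGraph B} (φ : G ⊕g K ≃g H ⊕g K)
      (x y : B ⊕ C), (H ⊕g K).Adj x y → (H ⊕g K).Adj (chase φ x) (chase φ y) := by
    intro A B G H φ x y h
    rcases x with b | c <;> rcases y with b' | c'
    · exact h
    · simp at h
    · simp at h
    · have h2 : (G ⊕g K).Adj (Sum.inr c) (Sum.inr c') := by simpa using h
      exact φ.map_adj_iff.2 h2
  have key2 : ∀ {A B : Type} {G : SimpleGraph A} {H : SimpleGraph B} (φ : G ⊕g K ≃g H ⊕g K)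
      (n : ℕ) (x y : B ⊕ C), (H ⊕g K).Adj x y →
      (H ⊕g K).Adj ((chase φ)^[n] x) ((chase φ)^[n] y) := by
    intro A B G H φ n
    induction n with
    | zero => exact fun x y h => h
    | succ n ih =>
      intro x y h
      rw [Function.iterate_succ_apply, Function.iterate_succ_apply]
      exact ih _ _ (key φ x y h)
  choose n f hf using fun a => chase_exit φ.toEquiv a
  choose m g hg using fun b => chase_exit φ.symm.toEquiv b
  have hgf : ∀ a, g (f a) = a := by
    intro a
    obtain ⟨j, hj⟩ := chase_rev φ.toEquiv (n a) (Sum.inl a) (f a) (hf a)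
    have h1 := chase_mono (φ.symm.toEquiv) (le_max_left (m (f a)) j) (hg (f a))
    have h2 := chase_mono (φ.symm.toEquiv) (le_max_right (m (f a)) j) (b := a)
      (x := φ.symm.toEquiv (Sum.inl (f a))) hj
    exact Sum.inl_injective (h1.symm.trans h2)
  have hfg : ∀ b, f (g b) = b := by
    intro b
    obtain ⟨j, hj⟩ := chase_rev φ.symm.toEquiv (m b) (Sum.inl b) (g b) (hg b)
    have h1 := chase_mono (φ.toEquiv) (le_max_left (n (g b)) j) (hf (g b))
    have h2 := chase_mono (φ.toEquiv) (le_max_right (n (g b)) j) (b := b)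
      (x := φ.toEquiv (Sum.inl (g b))) hj
    exact Sum.inl_injective (h1.symm.trans h2)
  have hfa : ∀ a a', G.Adj a a' → H.Adj (f a) (f a') := by
    intro a a' h
    have h1 : (H ⊕g K).Adj (φ (Sum.inl a)) (φ (Sum.inl a')) :=
      φ.map_adj_iff.2 (by simpa using h)
    have h2 := key2 φ (max (n a) (n a')) _ _ h1
    have h3 := chase_mono (φ.toEquiv) (le_max_left (n a) (n a')) (hf a)
    have h4 := chase_mono (φ.toEquiv) (le_max_right (n a) (n a')) (hf a')
    have h5 : (H ⊕g K).Adj (Sum.inl (f a)) (Sum.inl (f a')) := by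
      rw [← h3, ← h4]
      exact h2
    simpa using h5
  have hga : ∀ b b', H.Adj b b' → G.Adj (g b) (g b') := by
    intro b b' h
    have h1 : (G ⊕g K).Adj (φ.symm (Sum.inl b)) (φ.symm (Sum.inl b')) :=
      φ.symm.map_adj_iff.2 (by simpa using h)
    have h2 := key2 φ.symm (max (m b) (m b')) _ _ h1
    have h3 := chase_mono (φ.symm.toEquiv) (le_max_left (m b) (m b')) (hg b)
    have h4 := chase_mono (φ.symm.toEquiv) (le_max_right (m b) (m b')) (hg b')
    have h5 : (G ⊕g K).Adj (Sum.inl (g b)) (Sum.inl (g b')) := by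
      rw [← h3, ← h4]
      exact h2
    simpa using h5
  refine ⟨⟨⟨f, g, hgf, hfg⟩, fun {a a'} => ⟨fun h => ?_, fun h => hfa a a' h⟩⟩⟩
  have h1 := hga _ _ h
  simp only [Equiv.coe_fn_mk] at h1
  rwa [hgf, hgf] at h1

theorem cancel_sum_iff [Finite C] : Nonempty (G ⊕g K ≃g H ⊕g K) ↔ Nonempty (G ≃g H) := by
  constructor
  · rintro ⟨φ⟩
    exact cancel_sum φ
  · rintro ⟨φ⟩
    refine ⟨⟨Equiv.sumCongr φ.toEquiv (Equiv.refl C), ?_⟩⟩
    rintro (a | c) (a' | c')
    · simpa using φ.map_adj_iff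
    · simp
    · simp
    · simp

end

end Pool.Agent.U16.GI
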