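import Pool.Agent.U16.GI.Mat
import Pool.Agent.U16.GI.Defs
import Pool.Agent.N579.WL.Law

/-!
# Padding graphs
-/

set_option autoImplicit false

namespace Pool.Agent.U16.GI

open Finset Pool.Agent.NPC Pool.Agent.N579.WL

variable {n m : ℕ}

/-- The subgraph induced on the last `m` vertices. -/
def restr (Y : SimpleGraph (Fin (n + m))) : SimpleGraph (Fin m) := Y.comap (Fin.natAdd n)

/-- The pairs that meet the first `n` vertices. -/
def meet (n m : ℕ) : Finset (Sym2 (Fin (n + m))) :=
  (univ : Finset (Fin n × Fin (n + m))).image fun p => s(Fin.castAdd m p.1, p.2)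

theorem card_meet (n m : ℕ) : (meet n m).card ≤ n * (n + m) := by
  refine Finset.card_image_le.trans ?_
  rw [Finset.card_univ, Fintype.card_prod, Fintype.card_fin, Fintype.card_fin]

theorem mem_meet_left (i : Fin n) (y : Fin (n + m)) : s(Fin.castAdd m i, y) ∈ meet n m :=
  Finset.mem_image_of_mem _ (Finset.mem_univ (i, y))

theorem mem_meet_right (i : Fin n) (y : Fin (n + m)) : s(y, Fin.castAdd m i) ∈ meet n m := by
  rw [Sym2.eq_swap]
  exact mem_meet_left i y

theorem not_mem_meet (i j : Fin m) : s(Fin.natAdd n i, Fin.natAdd n j) ∉ meet n m := by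
  intro h
  obtain ⟨p, -, hp⟩ := Finset.mem_image.1 h
  rw [Sym2.eq_iff] at hp
  rcases hp with hp | hp
  · have h1 := congrArg Fin.val hp.1
    have h2 := p.1.2
    simp at h1
    omega
  · have h1 := congrArg Fin.val hp.1
    have h2 := p.1.2
    simp at h1
    omega

theorem mem_meet_cases {e : Sym2 (Fin (n + m))} (h : e ∉ meet n m) :
    ∃ i j : Fin m, e = s(Fin.natAdd n i, Fin.natAdd n j) := by
  induction e using Sym2.ind with
  | h a b =>
    refine Fin.addCases (fun i => ?_) (fun i => ?_) a (motive := fun a => s(a, b) ∉ meet n m →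
      ∃ i j : Fin m, s(a, b) = s(Fin.natAdd n i, Fin.natAdd n j)) h
    · intro h2
      exact absurd (mem_meet_left i b) h2
    · refine Fin.addCases (fun j => ?_) (fun j => ?_) b (motive := fun b =>
        s(Fin.natAdd n i, b) ∉ meet n m →
        ∃ i' j : Fin m, s(Fin.natAdd n i, b) = s(Fin.natAdd n i', Fin.natAdd n j))
      · intro h2
        exact absurd (mem_meet_right j _) h2
      · intro _
        exact ⟨i, j, rfl⟩

theorem eq_dsum {G : SimpleGraph (Fin n)} {Y : SimpleGraph (Fin (n + m))}
    (h : ∀ e ∈ meet n m, (e ∈ Y.edgeSet ↔ e ∈ (dsum G (restr Y)).edgeSet)) :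
    Y = dsum G (restr Y) := by
  ext a b
  rw [← SimpleGraph.mem_edgeSet, ← SimpleGraph.mem_edgeSet]
  by_cases hm : s(a, b) ∈ meet n m
  · exact h _ hm
  · obtain ⟨i, j, hij⟩ := mem_meet_cases hm
    rw [hij, SimpleGraph.mem_edgeSet, SimpleGraph.mem_edgeSet, dsum_rr]
    exact Iff.rfl

theorem dist_dsum (G : SimpleGraph (Fin n)) (Y : SimpleGraph (Fin (n + m))) :
    dist Y (dsum G (restr Y)) ≤ n * (n + m) := by
  unfold Pool.Agent.N579.WL.dist
  have h1 : symmDiff Y.edgeSet (dsum G (restr Y)).edgeSet ⊆ (meet n m : Set _) := by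
    intro e he
    by_contra hm
    obtain ⟨i, j, rfl⟩ := mem_meet_cases hm
    rw [Set.mem_symmDiff, SimpleGraph.mem_edgeSet, SimpleGraph.mem_edgeSet, dsum_rr] at he
    have h2 : (restr Y).Adj i j ↔ Y.Adj (Fin.natAdd n i) (Fin.natAdd n j) := Iff.rfl
    tauto
  refine (Set.ncard_le_ncard h1 (Set.toFinite _)).trans ?_
  rw [Set.ncard_coe_finset]
  exact card_meet n m

/-- Near a graph with only good graphs nearby there is a good padding graph. -/
theorem pad_of_ball (A : Set (List Bool)) (Y : SimpleGraph (Fin (n + m)))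
    (h : ∀ H, dist Y H ≤ n * (n + m) → ¬ Errs A H) :
    ∃ X : SimpleGraph (Fin m), ∀ G : SimpleGraph (Fin n), ¬ Errs A (dsum G X) :=
  ⟨restr Y, fun G => h _ (dist_dsum G Y)⟩

section law

variable {N : ℕ}

/-- The probability of a pattern which may depend on the other pairs. -/
theorem pattern_dep {δ : ℝ} {W : SimpleGraph (Fin N) → ℝ} (hW : Law δ W) (hδ0 : 0 ≤ δ)
    (hδ : δ ≤ 1) (P : SimpleGraph (Fin N) → SimpleGraph (Fin N)) (E : Finset (Sym2 (Fin N)))
    (hP : ∀ e ∈ E, ∀ G, P (flip e G) = P G) :
    δ ^ E.card ≤ prob W {G | ∀ e ∈ E, (e ∈ G.edgeSet ↔ e ∈ (P G).edgeSet)} := by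
  classical
  induction E using Finset.induction_on with
  | empty =>
    simp only [Finset.card_empty, pow_zero, Finset.notMem_empty, false_implies, implies_true]
    unfold prob
    have h1 : ({x : SimpleGraph (Fin N) | True} : Set (SimpleGraph (Fin N))) = Set.univ := rfl
    rw [h1]
    simp only [Set.indicator_univ]
    rw [hW.sum]
  | insert e E he ih =>
    have ih := ih fun e' he' => hP e' (mem_insert_of_mem he')
    rw [Finset.card_insert_of_notMem he, pow_succ']
    set T : Set (SimpleGraph (Fin N)) := {G | ∀ e ∈ E, (e ∈ G.edgeSet ↔ e ∈ (P G).edgeSet)} with hT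
    set T1 : Set (SimpleGraph (Fin N)) :=
      {G | ∀ e' ∈ insert e E, (e' ∈ G.edgeSet ↔ e' ∈ (P G).edgeSet)} with hT1
    have hmem : ∀ G, G ∈ T1 ↔ (e ∈ G.edgeSet ↔ e ∈ (P G).edgeSet) ∧ G ∈ T := by
      intro G
      simp only [hT1, hT, Set.mem_ofPred_eq, mem_insert, forall_eq_or_imp]
    by_cases hd : e.IsDiag
    · have h1 : T1 = T := by
        ext G
        rw [hmem]
        constructor
        · exact fun h => h.2
        · intro h
          refine ⟨⟨fun h2 => ?_, fun h2 => ?_⟩, h⟩
          · exact absurd hd (G.not_isDiag_of_mem_edgeSet h2)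
          · exact absurd hd ((P G).not_isDiag_of_mem_edgeSet h2)
      rw [h1]
      have h2 : 0 ≤ δ ^ E.card := pow_nonneg hδ0 _
      nlinarith
    · have hPe : ∀ G, P (flip e G) = P G := hP e (mem_insert_self e E)
      have hfT : ∀ G, flip e G ∈ T ↔ G ∈ T := by
        intro G
        simp only [hT, Set.mem_ofPred_eq, hPe]
        refine forall_congr' fun e' => forall_congr' fun he' => ?_
        have hne : e' ≠ e := by
          rintro rfl
          exact he he'
        have : e' ∈ (flip e G).edgeSet ↔ e' ∈ G.edgeSet := by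
          unfold Pool.Agent.N579.WL.flip
          rw [SimpleGraph.edgeSet_fromEdgeSet, Set.mem_sdiff, Set.mem_symmDiff,
            Set.mem_singleton_iff]
          constructor
          · rintro ⟨h2 | h2, _⟩
            · exact h2.1
            · exact absurd h2.1 hne
          · exact fun h2 => ⟨Or.inl ⟨h2, hne⟩, G.not_isDiag_of_mem_edgeSet h2⟩
        rw [this]
      have hfe : ∀ G : SimpleGraph (Fin N), e ∈ (flip e G).edgeSet ↔ e ∉ G.edgeSet := by
        intro G
        induction e using Sym2.ind with
        | h a b =>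
          rw [Sym2.mk_isDiag_iff] at hd
          rw [SimpleGraph.mem_edgeSet, SimpleGraph.mem_edgeSet, flip_adj]
          tauto
      have h1 : prob W T = ∑ G, T1.indicator (fun G => W G + W (flip e G)) G := by
        have h2 : prob W T = ∑ G, T1.indicator W G + ∑ G, (T \ T1).indicator W G := by
          unfold prob
          rw [← Finset.sum_add_distrib]
          refine Finset.sum_congr rfl fun G _ => ?_
          by_cases hG : G ∈ T
          · by_cases hG1 : G ∈ T1
            · rw [Set.indicator_of_mem hG, Set.indicator_of_mem hG1,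
                Set.indicator_of_notMem (fun h => h.2 hG1), add_zero]
            · have hG2 : G ∈ T \ T1 := (Set.mem_sdiff G).2 ⟨hG, hG1⟩
              rw [Set.indicator_of_mem hG, Set.indicator_of_notMem hG1,
                Set.indicator_of_mem hG2, zero_add]
          · have hG1 : G ∉ T1 := fun h => hG ((hmem G).1 h).2
            rw [Set.indicator_of_notMem hG, Set.indicator_of_notMem hG1,
              Set.indicator_of_notMem (fun h => hG h.1), add_zero]
        have h3 : ∑ G, (T \ T1).indicator W G = ∑ G, T1.indicator (fun G => W (flip e G)) G := by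
          rw [← Equiv.sum_comp (flipE e)]
          refine Finset.sum_congr rfl fun G _ => ?_
          show (T \ T1).indicator W (flip e G) = _
          have h4 : flip e G ∈ T \ T1 ↔ G ∈ T1 := by
            rw [Set.mem_sdiff, hmem, hmem, hfT, hfe, hPe]
            tauto
          by_cases hG : G ∈ T1
          · rw [Set.indicator_of_mem (h4.2 hG), Set.indicator_of_mem hG]
          · rw [Set.indicator_of_notMem (fun h => hG (h4.1 h)), Set.indicator_of_notMem hG]
        rw [h2, h3, ← Finset.sum_add_distrib]
        refine Finset.sum_congr rfl fun G _ => ?_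
        by_cases hG : G ∈ T1
        · rw [Set.indicator_of_mem hG, Set.indicator_of_mem hG, Set.indicator_of_mem hG]
        · rw [Set.indicator_of_notMem hG, Set.indicator_of_notMem hG, Set.indicator_of_notMem hG,
            add_zero]
      calc δ * δ ^ E.card ≤ δ * prob W T := mul_le_mul_of_nonneg_left ih hδ0
        _ = ∑ G, δ * T1.indicator (fun G => W G + W (flip e G)) G := by
            rw [h1, Finset.mul_sum]
        _ ≤ prob W T1 := by
            unfold prob
            refine Finset.sum_le_sum fun G _ => ?_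
            by_cases hG : G ∈ T1
            · rw [Set.indicator_of_mem hG, Set.indicator_of_mem hG]
              exact hW.cond G e hd
            · rw [Set.indicator_of_notMem hG, Set.indicator_of_notMem hG, mul_zero]

end law

theorem restr_flip {e : Sym2 (Fin (n + m))} (he : e ∈ meet n m) (Y : SimpleGraph (Fin (n + m))) :
    restr (flip e Y) = restr Y := by
  ext i j
  show (flip e Y).Adj (Fin.natAdd n i) (Fin.natAdd n j) ↔ Y.Adj (Fin.natAdd n i) (Fin.natAdd n j)
  rw [flip_adj]
  have h1 : s(Fin.natAdd n i, Fin.natAdd n j) ≠ e := by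
    rintro rfl
    exact not_mem_meet i j he
  constructor
  · rintro ⟨_, h2⟩
    exact h2.2 h1
  · intro h2
    exact ⟨h2.ne, ⟨fun _ => h1, fun _ => h2⟩⟩

/-- A law with few bad graphs has a good padding graph. -/
theorem pad_of_law {δ : ℝ} {W : SimpleGraph (Fin (n + m)) → ℝ} (hW : Law δ W) (hδ0 : 0 < δ)
    (hδ : δ ≤ 1) (A : Set (List Bool)) (h : prob W {G | Errs A G} < δ ^ (n * (n + m))) :
    ∃ X : SimpleGraph (Fin m), ∀ G : SimpleGraph (Fin n), ¬ Errs A (dsum G X) := by
  by_contra hcon
  push Not at hcon
  choose g hg using hcon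
  have h1 := pattern_dep hW hδ0.le hδ (fun Y => dsum (g (restr Y)) (restr Y)) (meet n m)
    (fun e he Y => by rw [restr_flip he])
  have h2 : δ ^ (n * (n + m)) ≤ δ ^ (meet n m).card :=
    pow_le_pow_of_le_one hδ0.le hδ (card_meet n m)
  have h3 : prob W {G | ∀ e ∈ meet n m,
      (e ∈ G.edgeSet ↔ e ∈ (dsum (g (restr G)) (restr G)).edgeSet)} ≤
      prob W {G | Errs A G} := by
    refine prob_mono hW.nonneg ?_
    intro Y hY
    have h4 := eq_dsum hY
    show Errs A Y
    rw [h4]
    exact hg (restr Y)
  linarith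

end Pool.Agent.U16.GI
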