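import Pool.Agent.U16.GI.Adv
import Pool.Agent.U16.GI.Pad

/-!
# From rarely wrong algorithms to deterministic algorithms
-/

set_option autoImplicit false

namespace Pool.Agent.U16.GI

open Pool.Agent.NPC Pool.Agent.NPC.R671 Pool.Agent.Y815.GI

/-- The matrix of the padding graph. -/
def xmat (F : List Bool → List Bool) (mP : Polynomial ℕ)
    (p : List (List Bool) × List (List Bool)) : List (List Bool) :=
  (List.range (List.replicate (mP.eval p.1.length) ()).length).map fun i =>
    (List.range (List.replicate (mP.eval p.1.length) ()).length).map fun j =>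
      ent ((unbits (List (List Bool)) (F (p.1.map (fun _ => true) ++
        (List.replicate (mP.eval p.1.length) ()).map fun _ => true))).getD [])
        (p.1.length + i) (p.1.length + j)

theorem poly_xmat {F : List Bool → List Bool} (hF : PolyTime F) (mP : Polynomial ℕ) :
    Poly (xmat F mP) := by
  have h0 : Poly (fun p : List (List Bool) × List (List Bool) =>
      List.replicate (mP.eval p.1.length) ()) :=
    UPoly.eval (UPoly.length (NPC.Poly.fst NPC.Poly.id)) mP
  have h1 : Poly (fun p : List (List Bool) × List (List Bool) =>
      List.range (List.replicate (mP.eval p.1.length) ()).length) := NPC.Poly.range_length h0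
  have h2 : Poly (fun p : List (List Bool) × List (List Bool) =>
      p.1.map (fun _ => true) ++ (List.replicate (mP.eval p.1.length) ()).map fun _ => true) := by
    refine NPC.Poly.append (by fun_prop) (NPC.Poly.map h0 (by fun_prop))
  have h3 : Poly (fun p : List (List Bool) × List (List Bool) =>
      (unbits (List (List Bool)) (F (p.1.map (fun _ => true) ++
        (List.replicate (mP.eval p.1.length) ()).map fun _ => true))).getD []) :=
    NPC.Poly.optGetD ((poly_unbits (α := List (List Bool))).comp
      ((Med.poly_of_polyTime hF).comp h2)) (NPC.Poly.const _)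
  unfold xmat
  refine NPC.Poly.map h1 ?_
  refine NPC.Poly.map (h1.comp (NPC.Poly.fst NPC.Poly.id)) ?_
  exact poly_ent (h3.comp (NPC.Poly.fst (NPC.Poly.fst NPC.Poly.id))) (by fun_prop) (by fun_prop)

/-- The deterministic algorithm. -/
def drun (V F : List Bool → List Bool) (mP : Polynomial ℕ)
    (p : List (List Bool) × List (List Bool)) : Bool :=
  (valid p.1 && (valid p.2 && decide (p.1.length = p.2.length))) &&
    decide (V (zz (p, xmat F mP p)) = [true])

theorem poly_drun {V F : List Bool → List Bool} (hV : PolyTime V) (hF : PolyTime F)
    (mP : Polynomial ℕ) : Poly (drun V F mP) := by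
  have h2 := (Med.poly_of_polyTime hV).comp (poly_zz (NPC.Poly.id (α := _)) (poly_xmat hF mP))
  unfold drun
  refine NPC.Poly.and (by fun_prop) (NPC.Poly.dec_eq h2 (NPC.Poly.const _))

/-- Explicit padding graphs give a deterministic algorithm. -/
theorem inP_of_explicit {A : Set (List Bool)} (hA : InP A) (F : List Bool → List Bool)
    (hF : PolyTime F) (Y : (n : ℕ) → SimpleGraph (Fin n))
    (hY : ∀ n, F (List.replicate n true) = bits (R671.adjMatrix (Y n))) (mP : Polynomial ℕ)
    (h : ∀ n, ∀ G : SimpleGraph (Fin n), ¬ Errs A (dsum G (restr (Y (n + mP.eval n))))) :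
    InP (lang GraphIso) := by
  obtain ⟨V, hV, hVA⟩ := hA
  refine inPP_of (P := GraphIso) (poly_drun hV hF mP) fun P => ?_
  unfold drun
  rw [Bool.and_eq_true, decide_eq_true_eq]
  by_cases hv : (valid P.1 && (valid P.2 && decide (P.1.length = P.2.length))) = true
  · obtain ⟨n, G, H, rfl⟩ := valid_pair hv
    have h1 : xmat F mP (R671.adjMatrix G, R671.adjMatrix H) =
        R671.adjMatrix (restr (Y (n + mP.eval n))) := by
      have h2 : ((R671.adjMatrix G).map (fun _ => true) ++
          (List.replicate (mP.eval (R671.adjMatrix G).length) ()).map fun _ => true) =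
          List.replicate (n + mP.eval n) true := by
        rw [List.map_const', List.map_const', List.length_replicate, length_adjMatrix,
          ← List.replicate_add]
      unfold xmat
      simp only [h2, hY, unbits_bits, Option.getD_some]
      simp only [length_adjMatrix, List.length_replicate]
      unfold R671.adjMatrix
      apply List.ext_getElem
      · simp
      · intro i h1 h2
        simp only [List.getElem_ofFn, List.getElem_map, List.getElem_range]
        apply List.ext_getElem
        · simp
        · intro j h3 h4
          simp only [List.length_ofFn] at h2 h4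
          simp only [List.getElem_ofFn, List.getElem_map, List.getElem_range]
          have h5 := ent_adjMatrix (Y (n + mP.eval n)) (Fin.natAdd n ⟨i, h2⟩)
            (Fin.natAdd n ⟨j, h4⟩)
          exact Bool.eq_iff_iff.2
            (h5.trans (@decide_eq_true_iff _ (Classical.propDecidable _)).symm)
    rw [h1, ← hVA]
    have hz : zz ((R671.adjMatrix G, R671.adjMatrix H),
        R671.adjMatrix (restr (Y (n + mP.eval n)))) =
        bits (R671.adjMatrix (dsum G (restr (Y (n + mP.eval n)))),
          R671.adjMatrix (dsum H (restr (Y (n + mP.eval n))))) := by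
      unfold zz
      rw [adjMatrix_dsum, adjMatrix_dsum]
    rw [hz, graphIso_iff, ← dsum_cancel G H (restr (Y (n + mP.eval n)))]
    have h10 : bits (R671.adjMatrix (dsum G (restr (Y (n + mP.eval n)))),
        R671.adjMatrix (dsum H (restr (Y (n + mP.eval n))))) ∈ A ↔
        Nonempty (dsum G (restr (Y (n + mP.eval n))) ≃g
          dsum H (restr (Y (n + mP.eval n)))) := by
      by_contra hcon
      exact h n G ⟨_, hcon⟩
    rw [h10]
    exact ⟨fun h11 => ⟨hv, h11⟩, fun h11 => h11.2⟩
  · constructor
    · intro h5
      exact absurd (valid_of_graphIso h5) hv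
    · intro h5
      exact absurd h5.1 hv

end Pool.Agent.U16.GI
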