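import Pool.Agent.U16.GI.Upper
import Pool.Agent.U16.GI.Bpp3
import Pool.Agent.U16.GI.Expl

/-!
# The threshold for algorithms that are rarely wrong
-/

set_option autoImplicit false

namespace Pool.Agent.U16.GI

open Finset Filter Pool.Agent.NPC Pool.Agent.NPC.R671 Pool.Agent.Y815.GI Pool.Agent.N579.WL
  Pool.Agent.Y645.BT

/-- The uniform law. -/
noncomputable def unif (n : ℕ) : SimpleGraph (Fin n) → ℝ := fun _ =>
  (Nat.card (SimpleGraph (Fin n)) : ℝ)⁻¹

theorem card_pos_gr (n : ℕ) : (0 : ℝ) < Nat.card (SimpleGraph (Fin n)) := by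
  have : 0 < Nat.card (SimpleGraph (Fin n)) := Nat.card_pos
  exact_mod_cast this

theorem unif_law {δ : ℝ} (hδ : δ ≤ 1 / 2) (n : ℕ) : Law δ (unif n) where
  nonneg _ := by
    unfold unif
    positivity
  sum := by
    unfold unif
    rw [Finset.sum_const, Finset.card_univ, nsmul_eq_mul, Nat.card_eq_fintype_card,
      mul_inv_cancel₀]
    have := card_pos_gr n
    rw [Nat.card_eq_fintype_card] at this
    exact this.ne'
  cond G e _ := by
    unfold unif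
    have h : (0 : ℝ) ≤ (Nat.card (SimpleGraph (Fin n)) : ℝ)⁻¹ := by positivity
    nlinarith

theorem prob_unif {n : ℕ} (S : Set (SimpleGraph (Fin n))) :
    prob (unif n) S = S.ncard / Nat.card (SimpleGraph (Fin n)) := by
  classical
  unfold prob unif
  rw [Finset.sum_indicator_eq_sum_filter, Finset.sum_const, nsmul_eq_mul, div_eq_mul_inv]
  congr 2
  rw [Set.ncard_eq_toFinset_card']
  congr 1
  ext G
  simp

/-- The choice of the size of the padding graph. -/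
theorem numbers {ε : ℝ} (hε : 0 < ε) (L N0 : ℕ) : ∃ mP : Polynomial ℕ, ∀ l n : ℕ,
    N0 ≤ n + mP.eval l ∧ 1 ≤ n + mP.eval l ∧
      ((L * l + 5 : ℕ) : ℝ) * (n + mP.eval l : ℕ) ≤ ((n + mP.eval l : ℕ) : ℝ) ^ (1 + ε) := by
  obtain ⟨t, ht⟩ := exists_nat_ge (1 / ε)
  refine ⟨(Polynomial.C L * Polynomial.X + Polynomial.C 5) ^ t + Polynomial.C N0, fun l n => ?_⟩
  have he : ((Polynomial.C L * Polynomial.X + Polynomial.C 5) ^ t + Polynomial.C N0 :
      Polynomial ℕ).eval l = (L * l + 5) ^ t + N0 := by simp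
  rw [he]
  have h1 : 1 ≤ (L * l + 5) ^ t := Nat.one_le_pow _ _ (by omega)
  refine ⟨by omega, by omega, ?_⟩
  set N : ℕ := n + ((L * l + 5) ^ t + N0) with hN
  have hN1 : 1 ≤ N := by omega
  have hNpos : (0 : ℝ) < N := by exact_mod_cast hN1
  have h2 : ((L * l + 5 : ℕ) : ℝ) ^ (t : ℝ) ≤ N := by
    rw [Real.rpow_natCast]
    have : (L * l + 5) ^ t ≤ N := by omega
    exact_mod_cast this
  have hb1 : (1 : ℝ) ≤ ((L * l + 5 : ℕ) : ℝ) := by
    have : 1 ≤ L * l + 5 := by omega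
    exact_mod_cast this
  have h3 : ((L * l + 5 : ℕ) : ℝ) ≤ (N : ℝ) ^ ε := by
    have h4 : 1 ≤ (t : ℝ) * ε := by
      rw [div_le_iff₀ hε] at ht
      exact ht
    calc ((L * l + 5 : ℕ) : ℝ) = ((L * l + 5 : ℕ) : ℝ) ^ (1 : ℝ) := (Real.rpow_one _).symm
      _ ≤ ((L * l + 5 : ℕ) : ℝ) ^ ((t : ℝ) * ε) := Real.rpow_le_rpow_of_exponent_le hb1 h4
      _ = (((L * l + 5 : ℕ) : ℝ) ^ (t : ℝ)) ^ ε := Real.rpow_mul (by positivity) _ _
      _ ≤ (N : ℝ) ^ ε := Real.rpow_le_rpow (by positivity) h2 hε.le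
  rw [Real.rpow_add hNpos, Real.rpow_one, mul_comm]
  exact mul_le_mul_of_nonneg_left h3 hNpos.le

theorem not_errs_graphIso {n : ℕ} (G : SimpleGraph (Fin n)) : ¬ Errs (lang GraphIso) G := by
  rintro ⟨H, hH⟩
  exact hH (bits_mem G H)

theorem prob_errs_graphIso {n : ℕ} (W : SimpleGraph (Fin n) → ℝ) :
    prob W {G | Errs (lang GraphIso) G} = 0 := by
  have h : {G : SimpleGraph (Fin n) | Errs (lang GraphIso) G} = ∅ := by
    ext G
    simp [not_errs_graphIso]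
  rw [h]
  unfold prob
  simp

/-- Small failure probability for one law. -/
theorem ppoly_of_law {δ : ℝ} (hδ0 : 0 < δ) (hδ : δ ≤ 1 / 2) {ε : ℝ} (hε : 0 < ε)
    {A : Set (List Bool)} (hA : InPPoly A)
    (h : ∀ᶠ n : ℕ in atTop, ∃ W : SimpleGraph (Fin n) → ℝ, Law δ W ∧
      prob W {G | Errs A G} ≤ (2 : ℝ) ^ (-((n : ℝ) ^ (1 + ε)))) : InPPoly (lang GraphIso) := by
  obtain ⟨N0, hN0⟩ := eventually_atTop.1 h
  obtain ⟨L, hL⟩ := exists_pow_lt_of_lt_one hδ0 (by norm_num : (1 / 2 : ℝ) < 1)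
  obtain ⟨mP, hm⟩ := numbers hε L N0
  refine ppoly_of_pads hA mP fun n => ?_
  obtain ⟨h1, h2, h3⟩ := hm n n
  obtain ⟨W, hW, hp⟩ := hN0 (n + mP.eval n) h1
  refine pad_of_law hW hδ0 (by linarith) A (hp.trans_lt ?_)
  set N : ℕ := n + mP.eval n with hN
  have hNpos : (0 : ℝ) < N := by exact_mod_cast h2
  have h4 : ((1 / 2 : ℝ) ^ L) ^ (n * N) ≤ δ ^ (n * N) :=
    pow_le_pow_left₀ (by positivity) hL.le _
  refine lt_of_lt_of_le ?_ h4
  rw [← pow_mul]
  have h5 : ((1 / 2 : ℝ)) ^ (L * (n * N)) = (2 : ℝ) ^ (-((L * (n * N) : ℕ) : ℝ)) := by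
    rw [Real.rpow_neg (by norm_num), Real.rpow_natCast, one_div, inv_pow]
  rw [h5]
  refine Real.rpow_lt_rpow_of_exponent_lt (by norm_num) ?_
  rw [neg_lt_neg_iff]
  refine lt_of_lt_of_le ?_ h3
  have h6 : L * (n * N) < (L * n + 5) * N := by nlinarith
  exact_mod_cast h6

/-- One ball without bad graphs. -/
theorem ppoly_of_ball {ε : ℝ} (hε : 0 < ε) {A : Set (List Bool)} (hA : InPPoly A)
    (h : ∀ᶠ n : ℕ in atTop, ∃ Y : SimpleGraph (Fin n), ∀ H,
      (Pool.Agent.N579.WL.dist Y H : ℝ) ≤ (n : ℝ) ^ (1 + ε) → ¬ Errs A H) :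
    InPPoly (lang GraphIso) := by
  obtain ⟨N0, hN0⟩ := eventually_atTop.1 h
  obtain ⟨mP, hm⟩ := numbers hε 1 N0
  refine ppoly_of_pads hA mP fun n => ?_
  obtain ⟨h1, h2, h3⟩ := hm n n
  obtain ⟨Y, hY⟩ := hN0 (n + mP.eval n) h1
  refine pad_of_ball A Y fun H hH => hY H (le_trans ?_ h3)
  have h4 : Pool.Agent.N579.WL.dist Y H ≤ (1 * n + 5) * (n + mP.eval n) := by
    refine hH.trans ?_
    exact Nat.mul_le_mul_right _ (by omega)
  exact_mod_cast h4

/-- One explicit ball without bad graphs. -/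
theorem inP_of_ball {ε : ℝ} (hε : 0 < ε) {A : Set (List Bool)} (hA : InP A)
    (F : List Bool → List Bool) (hF : PolyTime F) (Y : (n : ℕ) → SimpleGraph (Fin n))
    (hY : ∀ n, F (List.replicate n true) = bits (R671.adjMatrix (Y n)))
    (h : ∀ᶠ n : ℕ in atTop, ∀ H, (Pool.Agent.N579.WL.dist (Y n) H : ℝ) ≤ (n : ℝ) ^ (1 + ε) →
      ¬ Errs A H) : InP (lang GraphIso) := by
  obtain ⟨N0, hN0⟩ := eventually_atTop.1 h
  obtain ⟨mP, hm⟩ := numbers hε 1 N0
  refine inP_of_explicit hA F hF Y hY mP fun n G => ?_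
  obtain ⟨h1, h2, h3⟩ := hm n n
  refine hN0 (n + mP.eval n) h1 _ (le_trans ?_ h3)
  have h4 := dist_dsum G (Y (n + mP.eval n))
  have h5 : Pool.Agent.N579.WL.dist (Y (n + mP.eval n))
      (dsum G (restr (Y (n + mP.eval n)))) ≤ (1 * n + 5) * (n + mP.eval n) := by
    refine h4.trans ?_
    exact Nat.mul_le_mul_right _ (by omega)
  exact_mod_cast h5

/-- The number of graphs. -/
theorem card_le (n m : ℕ) : Nat.card (SimpleGraph (Fin (n + m))) ≤
    Nat.card (SimpleGraph (Fin m)) * 2 ^ (n * (n + m)) := by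
  classical
  have hinj : Function.Injective (fun Y : SimpleGraph (Fin (n + m)) =>
      ((restr Y, fun p : Fin n × Fin (n + m) => decide (Y.Adj (Fin.castAdd m p.1) p.2)) :
        SimpleGraph (Fin m) × (Fin n × Fin (n + m) → Bool))) := by
    intro Y Y' h
    have h1 : restr Y = restr Y' := congrArg Prod.fst h
    have h2 : ∀ (i : Fin n) (y : Fin (n + m)), Y.Adj (Fin.castAdd m i) y ↔
        Y'.Adj (Fin.castAdd m i) y := by
      intro i y
      have h3 := congrFun (congrArg Prod.snd h) (i, y)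
      simpa using h3
    ext a b
    refine Fin.addCases (fun i => ?_) (fun i => ?_) a
    · exact h2 i b
    · refine Fin.addCases (fun j => ?_) (fun j => ?_) b
      · rw [Y.adj_comm, Y'.adj_comm]
        exact h2 j _
      · exact iff_of_eq (congrFun (congrFun (congrArg SimpleGraph.Adj h1) i) j)
  have h1 := Nat.card_le_card_of_injective _ hinj
  refine h1.trans (le_of_eq ?_)
  rw [Nat.card_prod]
  congr 1
  simp

/-- Small failure probability for the uniform law. -/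
theorem bpp_of_unif {ε : ℝ} (hε : 0 < ε) {A : Set (List Bool)} (hA : InBPP A)
    (h : ∀ᶠ n : ℕ in atTop,
      prob (unif n) {G | Errs A G} ≤ (2 : ℝ) ^ (-((n : ℝ) ^ (1 + ε)))) :
    InBPP (lang GraphIso) := by
  obtain ⟨N0, hN0⟩ := eventually_atTop.1 h
  obtain ⟨mP, hm⟩ := numbers hε 1 N0
  refine bpp_of_rare3 hA mP fun n l hnl G => ?_
  obtain ⟨h1, h2, h3⟩ := hm l n
  have h4 := hN0 (n + mP.eval l) h1
  rw [prob_unif, div_le_iff₀ (card_pos_gr _)] at h4
  set m : ℕ := mP.eval l with hmdef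
  set N : ℕ := n + m with hN
  have h5 : {X : SimpleGraph (Fin m) | Errs A (dsum G X)}.ncard ≤
      {Y : SimpleGraph (Fin (n + m)) | Errs A Y}.ncard := by
    rw [← Set.ncard_image_of_injective {X : SimpleGraph (Fin m) | Errs A (dsum G X)}
      (fun (X X' : SimpleGraph (Fin m)) hXX => (dsum_inj (X := G) (X' := G) hXX).2)]
    refine Set.ncard_le_ncard ?_ (Set.toFinite _)
    rintro _ ⟨X, hX, rfl⟩
    exact hX
  have h6 : (Nat.card (SimpleGraph (Fin N)) : ℝ) ≤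
      Nat.card (SimpleGraph (Fin m)) * 2 ^ (n * N) := by
    exact_mod_cast card_le n m
  have h7 : (2 : ℝ) ^ (-((N : ℝ) ^ (1 + ε))) * 2 ^ (n * N) ≤ 1 / 16 := by
    have h8 : (2 : ℝ) ^ (n * N) = (2 : ℝ) ^ (((n * N : ℕ) : ℝ)) := (Real.rpow_natCast _ _).symm
    rw [h8, ← Real.rpow_add (by norm_num)]
    have h9 : (1 / 16 : ℝ) = (2 : ℝ) ^ (-4 : ℝ) := by
      rw [Real.rpow_neg (by norm_num)]
      norm_num
    rw [h9]
    refine Real.rpow_le_rpow_of_exponent_le (by norm_num) ?_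
    have h10 : n * N + 4 ≤ (1 * l + 5) * N := by
      have : n * N ≤ l * N := Nat.mul_le_mul_right _ hnl
      nlinarith
    have h11 : ((n * N : ℕ) : ℝ) + 4 ≤ ((1 * l + 5 : ℕ) : ℝ) * N := by exact_mod_cast h10
    linarith
  have h12 : (({X : SimpleGraph (Fin m) | Errs A (dsum G X)}.ncard : ℕ) : ℝ) ≤
      1 / 16 * Nat.card (SimpleGraph (Fin m)) := by
    have h13 : (({X : SimpleGraph (Fin m) | Errs A (dsum G X)}.ncard : ℕ) : ℝ) ≤
        ({Y : SimpleGraph (Fin (n + m)) | Errs A Y}.ncard : ℕ) := by exact_mod_cast h5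
    have hc := card_pos_gr m
    have h14 : (0 : ℝ) ≤ (2 : ℝ) ^ (-((N : ℝ) ^ (1 + ε))) := by positivity
    calc (({X : SimpleGraph (Fin m) | Errs A (dsum G X)}.ncard : ℕ) : ℝ)
        ≤ (2 : ℝ) ^ (-((N : ℝ) ^ (1 + ε))) * Nat.card (SimpleGraph (Fin N)) := h13.trans h4
      _ ≤ (2 : ℝ) ^ (-((N : ℝ) ^ (1 + ε))) *
          (Nat.card (SimpleGraph (Fin m)) * 2 ^ (n * N)) := mul_le_mul_of_nonneg_left h6 h14
      _ = ((2 : ℝ) ^ (-((N : ℝ) ^ (1 + ε))) * 2 ^ (n * N)) *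
          Nat.card (SimpleGraph (Fin m)) := by ring
      _ ≤ 1 / 16 * Nat.card (SimpleGraph (Fin m)) := mul_le_mul_of_nonneg_right h7 hc.le
  have h15 : ((({X : SimpleGraph (Fin m) | Errs A (dsum G X)}.ncard * 16 : ℕ)) : ℝ) ≤
      (Nat.card (SimpleGraph (Fin m)) : ℕ) := by
    push_cast
    have hc := card_pos_gr m
    linarith
  exact_mod_cast h15

end Pool.Agent.U16.GI
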