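import Pool.Agent.U16.GI.Cancel
import Pool.Agent.Y815.GI.Red

/-!
# Disjoint unions of graphs given by adjacency matrices
-/

set_option autoImplicit false

namespace Pool.Agent.U16.GI

open Pool.Agent.NPC Pool.Agent.NPC.R671 Pool.Agent.Y815.GI

variable {n m : ℕ}

/-- The disjoint union of two graphs on `{0, …, n - 1}` and `{0, …, m - 1}`. -/
def dsum (X : SimpleGraph (Fin n)) (Y : SimpleGraph (Fin m)) : SimpleGraph (Fin (n + m)) :=
  (X ⊕g Y).comap finSumFinEquiv.symm

def dsumIso (X : SimpleGraph (Fin n)) (Y : SimpleGraph (Fin m)) : dsum X Y ≃g X ⊕g Y where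
  toEquiv := finSumFinEquiv.symm
  map_rel_iff' := Iff.rfl

theorem dsum_cancel (X Y : SimpleGraph (Fin n)) (Z : SimpleGraph (Fin m)) :
    Nonempty (dsum X Z ≃g dsum Y Z) ↔ Nonempty (X ≃g Y) := by
  rw [← cancel_sum_iff (G := X) (H := Y) (K := Z)]
  constructor
  · rintro ⟨φ⟩
    exact ⟨((dsumIso X Z).symm.trans φ).trans (dsumIso Y Z)⟩
  · rintro ⟨φ⟩
    exact ⟨((dsumIso X Z).trans φ).trans (dsumIso Y Z).symm⟩

@[simp] theorem dsum_ll (X : SimpleGraph (Fin n)) (Y : SimpleGraph (Fin m)) (i j : Fin n) :
    (dsum X Y).Adj (Fin.castAdd m i) (Fin.castAdd m j) ↔ X.Adj i j := by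
  simp [dsum]

@[simp] theorem dsum_lr (X : SimpleGraph (Fin n)) (Y : SimpleGraph (Fin m)) (i : Fin n)
    (j : Fin m) : ¬ (dsum X Y).Adj (Fin.castAdd m i) (Fin.natAdd n j) := by
  simp [dsum]

@[simp] theorem dsum_rl (X : SimpleGraph (Fin n)) (Y : SimpleGraph (Fin m)) (i : Fin n)
    (j : Fin m) : ¬ (dsum X Y).Adj (Fin.natAdd n j) (Fin.castAdd m i) := by
  simp [dsum]

@[simp] theorem dsum_rr (X : SimpleGraph (Fin n)) (Y : SimpleGraph (Fin m)) (i j : Fin m) :
    (dsum X Y).Adj (Fin.natAdd n i) (Fin.natAdd n j) ↔ Y.Adj i j := by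
  simp [dsum]

theorem dsum_inj {X X' : SimpleGraph (Fin n)} {Y Y' : SimpleGraph (Fin m)}
    (h : dsum X Y = dsum X' Y') : X = X' ∧ Y = Y' := by
  constructor
  · ext i j
    rw [← dsum_ll X Y, h, dsum_ll]
  · ext i j
    rw [← dsum_rr X Y, h, dsum_rr]

/-- The matrix of the disjoint union. -/
def dm (M M' : List (List Bool)) : List (List Bool) :=
  M.map (fun r => r ++ M'.map (fun _ => false)) ++ M'.map (fun r => M.map (fun _ => false) ++ r)

theorem ofFn_add' {α : Type} (f : Fin (n + m) → α) :
    List.ofFn f = (List.ofFn fun i => f (Fin.castAdd m i)) ++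
      List.ofFn fun j => f (Fin.natAdd n j) := by
  apply List.ext_getElem
  · simp
  · intro i h1 h2
    simp only [List.length_ofFn] at h1
    rw [List.getElem_ofFn, List.getElem_append]
    split_ifs with h
    · simp only [List.length_ofFn] at h
      rw [List.getElem_ofFn]
      rfl
    · simp only [List.length_ofFn, not_lt] at h
      rw [List.getElem_ofFn]
      congr 1
      ext
      simp only [List.length_ofFn, Fin.natAdd_mk]
      omega

theorem adjMatrix_dsum (X : SimpleGraph (Fin n)) (Y : SimpleGraph (Fin m)) :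
    adjMatrix (dsum X Y) = dm (adjMatrix X) (adjMatrix Y) := by
  classical
  unfold R671.adjMatrix dm
  rw [ofFn_add']
  congr 1
  · rw [List.map_ofFn, List.ofFn_inj]
    funext i
    simp only [Function.comp]
    rw [ofFn_add']
    congr 1
    · rw [List.ofFn_inj]
      funext j
      simp
    · rw [List.map_ofFn, List.ofFn_inj]
      funext j
      simp
  · rw [List.map_ofFn, List.ofFn_inj]
    funext i
    simp only [Function.comp]
    rw [ofFn_add']
    congr 1
    · rw [List.map_ofFn, List.ofFn_inj]
      funext j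
      simp
    · rw [List.ofFn_inj]
      funext j
      simp

/-- The graph on `m` vertices given by `m ^ 2` bits (those of the pairs `i < j`). -/
def bitGraph (m : ℕ) (f : ℕ → Bool) : SimpleGraph (Fin m) where
  Adj i j := (i < j ∧ f (i * m + j) = true) ∨ (j < i ∧ f (j * m + i) = true)
  symm := ⟨fun _ _ h => h.symm⟩
  loopless := ⟨fun i h => by rcases h with h | h <;> exact absurd h.1 (lt_irrefl i)⟩

/-- The matrix of this graph. -/
def bm (l : List Unit) (r : List Bool) : List (List Bool) :=
  (List.range l.length).map fun i => (List.range l.length).map fun j =>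
    (decide (i < j) && r.getD (i * l.length + j) false) ||
      (decide (j < i) && r.getD (j * l.length + i) false)

theorem adjMatrix_bitGraph (l : List Unit) (r : List Bool) :
    adjMatrix (bitGraph l.length fun i => r.getD i false) = bm l r := by
  classical
  unfold R671.adjMatrix bm
  apply List.ext_getElem
  · simp
  · intro i h1 h2
    simp only [List.getElem_ofFn, List.getElem_map, List.getElem_range]
    apply List.ext_getElem
    · simp
    · intro j h3 h4
      simp only [List.getElem_ofFn, List.getElem_map, List.getElem_range, bitGraph, Fin.mk_lt_mk]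
      by_cases a : i < j <;> by_cases b : j < i <;> simp [a, b]

section poly

variable {α : Type} [TEnc α]

@[fun_prop]
theorem poly_dm {f g : α → List (List Bool)} (hf : Poly f) (hg : Poly g) :
    Poly (fun a => dm (f a) (g a)) := by
  unfold dm
  fun_prop

@[fun_prop]
theorem poly_bm {f : α → List Unit} {g : α → List Bool} (hf : Poly f) (hg : Poly g) :
    Poly (fun a => bm (f a) (g a)) := by
  have h : Poly (fun a => List.range (f a).length) := Poly.range_length hf
  unfold bm
  refine NPC.Poly.map h ?_
  refine NPC.Poly.map (h.comp (NPC.Poly.fst NPC.Poly.id)) ?_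
  fun_prop

end poly

end Pool.Agent.U16.GI
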