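import Pool.Agent.U16.GI.Final

/-!
# The equivalences
-/

set_option autoImplicit false

namespace Pool.Agent.U16.GI

open Finset Filter Pool.Agent.NPC Pool.Agent.NPC.R671 Pool.Agent.Y815.GI Pool.Agent.N579.WL
  Pool.Agent.Y645.BT

theorem upper' (δ : ℝ) (hδ0 : 0 < δ) (hδ : δ ≤ 1 / 2) (C : ℝ) :
    ∃ A : Set (List Bool), InP A ∧ ∀ᶠ n : ℕ in atTop,
      ∀ W : SimpleGraph (Fin n) → ℝ, Law δ W →
        prob W {G | ∃ H, (Pool.Agent.N579.WL.dist G H : ℝ) ≤ C * n ∧ Errs A H} ≤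
          (2 : ℝ) ^ (-(C * n)) := by
  obtain ⟨A, hA, n0, h⟩ := upper δ hδ0 hδ C
  exact ⟨A, hA, eventually_atTop.2 ⟨n0, fun n hn => h n hn⟩⟩

theorem InP.inPPoly {L : Set (List Bool)} (h : InP L) : InPPoly L := by
  obtain ⟨V, hV, h⟩ := h
  have h1 : Poly (fun y : List Bool => decide (V (unpair y).1 = [true])) :=
    NPC.Poly.dec_eq ((Med.poly_of_polyTime hV).comp (NPC.Poly.fst poly_unpair))
      (NPC.Poly.const _)
  refine ⟨_, fun _ => [], 0, polyTime_of_poly h1, fun l => by simp, fun x => ?_⟩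
  rw [unpair_pairBits]
  simp only [List.cons.injEq, and_true, decide_eq_true_eq]
  exact h x

/-- The code of the empty graph. -/
def emptyF (x : List Bool) : List (List Bool) := x.map fun _ => x.map fun _ => false

theorem poly_emptyF : Poly emptyF := by
  unfold emptyF
  fun_prop

theorem emptyF_eq (n : ℕ) : emptyF (List.replicate n true) =
    R671.adjMatrix (⊥ : SimpleGraph (Fin n)) := by
  unfold emptyF R671.adjMatrix
  apply List.ext_getElem
  · simp
  · intro i h1 h2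
    simp only [List.getElem_map, List.getElem_ofFn]
    apply List.ext_getElem
    · simp
    · intro j h3 h4
      simp

theorem law_iff {δ : ℝ} (hδ0 : 0 < δ) (hδ : δ ≤ 1 / 2) {ε : ℝ} (hε : 0 < ε) :
    InPPoly (lang GraphIso) ↔ ∃ A : Set (List Bool), InPPoly A ∧ ∀ᶠ n : ℕ in atTop,
      ∃ W : SimpleGraph (Fin n) → ℝ, Law δ W ∧
        prob W {G | Errs A G} ≤ (2 : ℝ) ^ (-((n : ℝ) ^ (1 + ε))) := by
  constructor
  · intro h
    refine ⟨lang GraphIso, h, Eventually.of_forall fun n => ⟨unif n, unif_law hδ n, ?_⟩⟩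
    rw [prob_errs_graphIso]
    positivity
  · rintro ⟨A, hA, h⟩
    exact ppoly_of_law hδ0 hδ hε hA h

theorem ball_iff {ε : ℝ} (hε : 0 < ε) :
    InPPoly (lang GraphIso) ↔ ∃ A : Set (List Bool), InPPoly A ∧ ∀ᶠ n : ℕ in atTop,
      ∃ Y : SimpleGraph (Fin n), ∀ H,
        (Pool.Agent.N579.WL.dist Y H : ℝ) ≤ (n : ℝ) ^ (1 + ε) → ¬ Errs A H := by
  constructor
  · intro h
    exact ⟨lang GraphIso, h, Eventually.of_forall fun n => ⟨⊥, fun H _ => not_errs_graphIso H⟩⟩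
  · rintro ⟨A, hA, h⟩
    exact ppoly_of_ball hε hA h

theorem bpp_iff {ε : ℝ} (hε : 0 < ε) :
    InBPP (lang GraphIso) ↔ ∃ A : Set (List Bool), InBPP A ∧ ∀ᶠ n : ℕ in atTop,
      prob (unif n) {G | Errs A G} ≤ (2 : ℝ) ^ (-((n : ℝ) ^ (1 + ε))) := by
  constructor
  · intro h
    refine ⟨lang GraphIso, h, Eventually.of_forall fun n => ?_⟩
    rw [prob_errs_graphIso]
    positivity
  · rintro ⟨A, hA, h⟩
    exact bpp_of_unif hε hA h

theorem explicit_iff {ε : ℝ} (hε : 0 < ε) :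
    InP (lang GraphIso) ↔ ∃ A : Set (List Bool), InP A ∧
      ∃ (F : List Bool → List Bool) (Y : (n : ℕ) → SimpleGraph (Fin n)), PolyTime F ∧
        (∀ n, F (List.replicate n true) = bits (R671.adjMatrix (Y n))) ∧
        ∀ᶠ n : ℕ in atTop, ∀ H,
          (Pool.Agent.N579.WL.dist (Y n) H : ℝ) ≤ (n : ℝ) ^ (1 + ε) → ¬ Errs A H := by
  constructor
  · intro h
    refine ⟨lang GraphIso, h, fun x => bits (emptyF x), fun n => ⊥, polyTime_bits poly_emptyF,
      fun n => ?_, Eventually.of_forall fun n H _ => not_errs_graphIso H⟩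
    exact congrArg bits (emptyF_eq n)
  · rintro ⟨A, hA, F, Y, hF, hY, h⟩
    exact inP_of_ball hε hA F hF Y hY h

end Pool.Agent.U16.GI
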