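import Pool.Agent.U16.GI.WlCor
import Pool.Agent.U16.GI.Defs
import Pool.Agent.N579.WL.Robust

/-!
# Rarely wrong polynomial-time algorithms
-/

set_option autoImplicit false

namespace Pool.Agent.U16.GI

open Finset Pool.Agent.NPC Pool.Agent.NPC.R671 Pool.Agent.Y815.GI Pool.Agent.W185.SRG
  Pool.Agent.N579.WL

/-- The language accepted by the `k`-dimensional Weisfeiler-Leman method. -/
def wlLang (k : ℕ) : Set (List Bool) := lang fun p : Inp => wlTest k p = true

theorem wlLang_inP (k : ℕ) : InP (wlLang k) :=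
  inPP_of (P := fun p : Inp => wlTest k p = true) (poly_wlTest k) fun _ => Iff.rfl

theorem not_errs {n k : ℕ} {G : SimpleGraph (Fin n)} (h : IdentifiedBy k G) :
    ¬ Errs (wlLang k) G := by
  rintro ⟨H, hH⟩
  apply hH
  unfold wlLang
  rw [bits_mem_lang]
  have h1 := wlTest_iff G H k
  unfold inp2 at h1
  rw [h1]
  exact ⟨fun h2 => h _ _ h2, fun ⟨φ⟩ => wlEquivalent_of_iso φ k⟩

/-- For every constant `C`, a polynomial-time algorithm is right about all graphs which an adversary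
can get from the noisy graph by changing `C n` pairs, up to probability `2 ^ (- C n)`. -/
theorem upper (δ : ℝ) (hδ0 : 0 < δ) (hδ : δ ≤ 1 / 2) (C : ℝ) :
    ∃ A : Set (List Bool), InP A ∧ ∃ n0 : ℕ, ∀ n : ℕ, n0 ≤ n →
      ∀ W : SimpleGraph (Fin n) → ℝ, Law δ W →
        prob W {G | ∃ H, (dist G H : ℝ) ≤ C * n ∧ Errs A H} ≤ (2 : ℝ) ^ (-(C * n)) := by
  obtain ⟨c, hc, k0, h⟩ := robust_law δ hδ0 hδ
  obtain ⟨k1, hk1⟩ := exists_nat_ge (C / c)
  refine ⟨wlLang (max k0 k1), wlLang_inP _, max k0 k1, fun n hn W hW => ?_⟩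
  have h1 := h n (max k0 k1) (le_max_left _ _) hn W hW
  have h2 : C ≤ c * (max k0 k1 : ℕ) := by
    have h3 : C / c ≤ (max k0 k1 : ℕ) := hk1.trans (by exact_mod_cast le_max_right _ _)
    rw [div_le_iff₀ hc] at h3
    linarith
  have h4 : C * n ≤ c * (max k0 k1 : ℕ) * n := mul_le_mul_of_nonneg_right h2 (Nat.cast_nonneg n)
  refine (prob_mono hW.nonneg ?_).trans (h1.trans
    (Real.rpow_le_rpow_of_exponent_le (by norm_num) (by linarith)))
  rintro G ⟨H, h5, h6⟩
  exact ⟨H, h5.trans h4, fun h7 => not_errs h7 h6⟩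

end Pool.Agent.U16.GI
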