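import Pool.Agent.U16.GI.Mat
import Pool.Agent.W185.SRG.Defs

/-!
# The Weisfeiler-Leman method in polynomial time
-/

set_option autoImplicit false

namespace Pool.Agent.U16.GI

open Pool.Agent.NPC Pool.Agent.NPC.R671 Pool.Agent.Y815.GI Pool.Agent.W185.SRG

/-! ### The algorithm -/

/-- All lists of length `k` with entries in `l`. -/
def tup (l : List ℕ) : ℕ → List (List ℕ)
  | 0 => [[]]
  | k + 1 => l.flatMap fun x => (tup l k).map fun S => x :: S

/-- A situation: the choice of one of the two graphs, and a tuple of vertices. -/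
abbrev Sit := Bool × List ℕ

/-- The input: two matrices. -/
abbrev Inp := List (List Bool) × List (List Bool)

/-- Replace the entry number `i`. -/
def upd (S : List ℕ) (i x : ℕ) : List ℕ := S.zipIdx.map fun q => if q.2 = i then x else q.1

/-- An entry of one of the matrices. -/
def entS (p : Inp) (b : Bool) (i j : ℕ) : Bool := if b = true then ent p.2 i j else ent p.1 i j

/-- Two situations have the same equalities and adjacencies. -/
def isoB (p : Inp) (k : ℕ) (s s' : Sit) : Bool :=
  (List.range k).all fun i => (List.range k).all fun j =>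
    decide (decide (s.2.getD i 0 = s.2.getD j 0) = decide (s'.2.getD i 0 = s'.2.getD j 0)) &&
    decide (entS p s.1 (s.2.getD i 0) (s.2.getD j 0) =
      entS p s'.1 (s'.2.getD i 0) (s'.2.getD j 0))

/-- All situations. -/
def sits (p : Inp) (k : ℕ) : List Sit :=
  (tup (List.range p.1.length) k).map (fun S => (false, S)) ++
    (tup (List.range p.1.length) k).map (fun S => (true, S))

/-- The pairs of situations with the same initial colour. -/
def rel0 (p : Inp) (k : ℕ) : List (Sit × Sit) :=
  (sits p k ×ˢ sits p k).filter fun q => isoB p k q.1 q.2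

/-- The number of vertices `x` such that the substitutions of `x` in `s` and of `y` in `s₀` are
related. -/
def cnt (p : Inp) (k : ℕ) (R : List (Sit × Sit)) (s s₀ : Sit) (y : ℕ) : ℕ :=
  ((List.range p.1.length).filter fun x => (List.range k).all fun i =>
    decide (((s.1, upd s.2 i x), (s₀.1, upd s₀.2 i y)) ∈ R)).length

/-- One round. -/
def next (p : Inp) (k : ℕ) (R : List (Sit × Sit)) : List (Sit × Sit) :=
  R.filter fun q => (List.range p.1.length).all fun y =>
    decide (cnt p k R q.1 q.1 y = cnt p k R q.2 q.1 y)

/-- The result of sufficiently many rounds. -/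
def final (p : Inp) (k : ℕ) : List (Sit × Sit) :=
  (next p k)^[(sits p k ×ˢ sits p k).length] (rel0 p k)

/-- The number of tuples `S'` of one of the graphs with the same colour as the tuple `S` of the
first graph. -/
def cls (p : Inp) (k : ℕ) (R : List (Sit × Sit)) (b : Bool) (S : List ℕ) : ℕ :=
  ((tup (List.range p.1.length) k).filter fun S' => decide (((b, S'), (false, S)) ∈ R)).length

/-- The test. -/
def test (p : Inp) (k : ℕ) (R : List (Sit × Sit)) : Bool :=
  (tup (List.range p.1.length) k).all fun S => decide (cls p k R false S = cls p k R true S)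

/-- The algorithm. -/
def wlTest (k : ℕ) (p : Inp) : Bool := test p k (final p k)

/-! ### Polynomial time -/

section poly

variable {α : Type} [TEnc α]

@[fun_prop]
theorem poly_tup (k : ℕ) {l : α → List ℕ} (hl : Poly l) : Poly (fun a => tup (l a) k) := by
  induction k with
  | zero => exact NPC.Poly.const _
  | succ k ih =>
    unfold tup
    refine NPC.Poly.flatMap hl (NPC.Poly.map (ih.comp (NPC.Poly.fst NPC.Poly.id)) ?_)
    fun_prop

@[fun_prop]
theorem poly_upd {S : α → List ℕ} {i x : α → ℕ} (hS : Poly S) (hi : Poly i) (hx : Poly x) :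
    Poly (fun a => upd (S a) (i a) (x a)) := by
  unfold upd
  fun_prop

@[fun_prop]
theorem poly_entS {p : α → Inp} {b : α → Bool} {i j : α → ℕ} (hp : Poly p) (hb : Poly b)
    (hi : Poly i) (hj : Poly j) : Poly (fun a => entS (p a) (b a) (i a) (j a)) := by
  unfold entS
  fun_prop

@[fun_prop]
theorem poly_isoB (k : ℕ) {p : α → Inp} {s s' : α → Sit} (hp : Poly p) (hs : Poly s)
    (hs' : Poly s') : Poly (fun a => isoB (p a) k (s a) (s' a)) := by
  unfold isoB
  fun_prop

theorem poly_rng {p : α → Inp} (hp : Poly p) : Poly (fun a => List.range (p a).1.length) :=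
  NPC.Poly.range_length (NPC.Poly.fst hp)

attribute [fun_prop] poly_rng

@[fun_prop]
theorem poly_sits (k : ℕ) {p : α → Inp} (hp : Poly p) : Poly (fun a => sits (p a) k) := by
  unfold sits
  fun_prop

@[fun_prop]
theorem poly_rel0 (k : ℕ) {p : α → Inp} (hp : Poly p) : Poly (fun a => rel0 (p a) k) := by
  unfold rel0
  fun_prop

@[fun_prop]
theorem poly_cnt (k : ℕ) {p : α → Inp} {R : α → List (Sit × Sit)} {s s₀ : α → Sit} {y : α → ℕ}
    (hp : Poly p) (hR : Poly R) (hs : Poly s) (hs₀ : Poly s₀) (hy : Poly y) :
    Poly (fun a => cnt (p a) k (R a) (s a) (s₀ a) (y a)) := by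
  unfold cnt
  fun_prop

@[fun_prop]
theorem poly_next (k : ℕ) {p : α → Inp} {R : α → List (Sit × Sit)} (hp : Poly p) (hR : Poly R) :
    Poly (fun a => next (p a) k (R a)) := by
  unfold next
  fun_prop

theorem sz_sublist {β : Type} [TEnc β] {l l' : List β} (h : l.Sublist l') : sz l ≤ sz l' := by
  induction h with
  | slnil => exact le_rfl
  | cons a _ ih =>
    have := sz_pos a
    simp
    omega
  | cons_cons a _ ih =>
    simp
    omega

theorem next_sublist (p : Inp) (k : ℕ) (R : List (Sit × Sit)) : (next p k R).Sublist R :=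
  List.filter_sublist

theorem iter_sublist (p : Inp) (k : ℕ) (t : ℕ) (R : List (Sit × Sit)) :
    ((next p k)^[t] R).Sublist R := by
  induction t generalizing R with
  | zero => exact List.Sublist.refl R
  | succ t ih =>
    rw [Function.iterate_succ_apply]
    exact (ih _).trans (next_sublist p k R)

theorem poly_final (k : ℕ) : Poly (fun p : Inp => final p k) := by
  unfold final
  obtain ⟨q, hq⟩ := (poly_rel0 k (NPC.Poly.id (α := Inp))).sz_le
  refine NPC.Poly.iterLen (l := fun p : Inp => sits p k ×ˢ sits p k)
    (F := fun p R => next p k R) ?_ ?_ ?_ q ?_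
  · fun_prop
  · fun_prop
  · fun_prop
  · intro p t _
    exact (sz_sublist (iter_sublist p k t _)).trans (hq p)

@[fun_prop]
theorem poly_cls (k : ℕ) {p : α → Inp} {R : α → List (Sit × Sit)} {b : α → Bool}
    {S : α → List ℕ} (hp : Poly p) (hR : Poly R) (hb : Poly b) (hS : Poly S) :
    Poly (fun a => cls (p a) k (R a) (b a) (S a)) := by
  unfold cls
  fun_prop

@[fun_prop]
theorem poly_test (k : ℕ) {p : α → Inp} {R : α → List (Sit × Sit)} (hp : Poly p) (hR : Poly R) :
    Poly (fun a => test (p a) k (R a)) := by
  unfold test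
  fun_prop

theorem poly_wlTest (k : ℕ) : Poly (wlTest k) := by
  have h := poly_test k (NPC.Poly.id (α := Inp)) (poly_final k)
  exact h

end poly

end Pool.Agent.U16.GI
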