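import Pool.Agent.U16.GI.WlAlg
import Pool.Agent.N579.WL.Plant

/-!
# The Weisfeiler-Leman method in polynomial time: correctness
-/

set_option autoImplicit false

namespace Pool.Agent.U16.GI

open Finset Pool.Agent.NPC Pool.Agent.NPC.R671 Pool.Agent.Y815.GI Pool.Agent.W185.SRG
  Pool.Agent.N579.WL

/-! ### Tuples -/

/-- The code of a tuple. -/
def enc {n k : ℕ} (S : Fin k → Fin n) : List ℕ := List.ofFn fun i => (S i : ℕ)

theorem enc_inj {n k : ℕ} {S S' : Fin k → Fin n} (h : enc S = enc S') : S = S' := by
  funext i
  have h1 := congrFun (List.ofFn_injective h) i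
  exact Fin.ext h1

theorem getD_enc {n k : ℕ} (S : Fin k → Fin n) (i : Fin k) : (enc S).getD i 0 = S i := by
  unfold enc
  rw [List.getD_eq_getElem?_getD, List.getElem?_ofFn]
  simp

theorem upd_enc {n k : ℕ} (S : Fin k → Fin n) (i : Fin k) (x : Fin n) :
    upd (enc S) i x = enc (Function.update S i x) := by
  unfold upd enc
  apply List.ext_getElem
  · simp
  · intro j h1 h2
    simp only [List.getElem_map, List.getElem_zipIdx, List.getElem_ofFn, zero_add]
    simp only [List.length_ofFn] at h2
    by_cases h : j = i
    · subst h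
      simp
    · rw [if_neg h, Function.update_of_ne]
      intro h3
      exact h (by rw [← h3])

theorem mem_tup (n k : ℕ) (L : List ℕ) :
    L ∈ tup (List.range n) k ↔ ∃ S : Fin k → Fin n, enc S = L := by
  induction k generalizing L with
  | zero =>
    simp only [tup, List.mem_singleton]
    constructor
    · rintro rfl
      exact ⟨Fin.elim0, by simp [enc]⟩
    · rintro ⟨S, rfl⟩
      simp [enc]
  | succ k ih =>
    simp only [tup, List.mem_flatMap, List.mem_range, List.mem_map]
    constructor
    · rintro ⟨x, hx, S, hS, rfl⟩
      obtain ⟨S', rfl⟩ := (ih S).1 hS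
      refine ⟨Fin.cons ⟨x, hx⟩ S', ?_⟩
      unfold enc
      rw [List.ofFn_succ]
      simp
    · rintro ⟨S, rfl⟩
      refine ⟨S 0, (S 0).2, enc (fun i => S i.succ), (ih _).2 ⟨_, rfl⟩, ?_⟩
      unfold enc
      rw [List.ofFn_succ]

theorem nodup_tup (n k : ℕ) : (tup (List.range n) k).Nodup := by
  induction k with
  | zero => simp [tup]
  | succ k ih =>
    unfold tup
    rw [List.nodup_flatMap]
    refine ⟨fun x _ => ih.map fun a b h => (List.cons_eq_cons.1 h).2, ?_⟩
    refine List.Pairwise.imp ?_ List.nodup_range
    intro a b hab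
    rw [Function.onFun, List.disjoint_left]
    intro L h1 h2
    rw [List.mem_map] at h1 h2
    obtain ⟨S, _, rfl⟩ := h1
    obtain ⟨S', _, h3⟩ := h2
    exact hab (List.cons_eq_cons.1 h3).1.symm

open Classical in
theorem filter_tup (n k : ℕ) (P : List ℕ → Bool) :
    ((tup (List.range n) k).filter P).length =
      (univ.filter fun S : Fin k → Fin n => P (enc S) = true).card := by
  have h1 : ((tup (List.range n) k).filter P).length =
      (((tup (List.range n) k).filter P).toFinset).card :=
    (List.toFinset_card_of_nodup ((nodup_tup n k).filter _)).symm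
  rw [h1, ← Finset.card_image_of_injective _ (fun (S S' : Fin k → Fin n) h => enc_inj h)]
  congr 1
  ext L
  simp only [List.mem_toFinset, List.mem_filter, mem_tup, mem_image, mem_filter, mem_univ,
    true_and]
  constructor
  · rintro ⟨⟨S, rfl⟩, h⟩
    exact ⟨S, h, rfl⟩
  · rintro ⟨S, h, rfl⟩
    exact ⟨⟨S, rfl⟩, h⟩

open Classical in
theorem filter_range (n : ℕ) (P : ℕ → Bool) :
    ((List.range n).filter P).length = (univ.filter fun x : Fin n => P x = true).card := by
  have h1 : ((List.range n).filter P).length = (((List.range n).filter P).toFinset).card :=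
    (List.toFinset_card_of_nodup (List.nodup_range.filter _)).symm
  rw [h1, ← Finset.card_image_of_injective _ (Fin.val_injective (n := n))]
  congr 1
  ext x
  simp only [List.mem_toFinset, List.mem_filter, List.mem_range, mem_image, mem_filter, mem_univ,
    true_and]
  constructor
  · rintro ⟨h2, h⟩
    exact ⟨⟨x, h2⟩, h, rfl⟩
  · rintro ⟨y, h, rfl⟩
    exact ⟨y.2, h⟩

/-! ### Multisets -/

open Classical in
theorem map_eq_iff {I C : Type} [Fintype I] (F F' : I → C) :
    (univ : Finset I).val.map F = (univ : Finset I).val.map F' ↔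
      ∀ y, (univ.filter fun x => F x = F y).card = (univ.filter fun x => F' x = F y).card := by
  have hc : ∀ (f : I → C) (c : C), Multiset.count c ((univ : Finset I).val.map f) =
      (univ.filter fun x => f x = c).card := by
    intro f c
    rw [Multiset.count_map]
    rw [Finset.card_def, Finset.filter_val]
    congr 1
    refine Multiset.filter_congr fun x _ => ?_
    exact eq_comm
  constructor
  · intro h y
    rw [← hc, ← hc, h]
  · intro h
    refine Multiset.eq_of_le_of_card_le ?_ (by simp)
    rw [Multiset.le_iff_count]
    intro c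
    by_cases hcc : ∃ y, F y = c
    · obtain ⟨y, rfl⟩ := hcc
      rw [hc, hc, h]
    · rw [hc, Finset.filter_false_of_mem fun x _ hx => hcc ⟨x, hx⟩]
      exact Nat.zero_le _

open Classical in
theorem exists_equiv_of_map {I J C : Type} [Fintype I] [Fintype J] (F : I → C) (F' : J → C)
    (h : (univ : Finset I).val.map F = (univ : Finset J).val.map F') :
    ∃ ψ : I ≃ J, ∀ x, F x = F' (ψ x) := by
  have h1 : ∀ c, Nonempty ({a // F a = c} ≃ {b // F' b = c}) := by
    intro c
    refine ⟨Fintype.equivOfCardEq ?_⟩
    have h2 := congrArg (Multiset.count c) h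
    rw [Multiset.count_map, Multiset.count_map] at h2
    rw [Fintype.card_subtype, Fintype.card_subtype, Finset.card_def, Finset.card_def,
      Finset.filter_val, Finset.filter_val]
    simp only [eq_comm (a := c)] at h2
    exact h2
  refine ⟨Equiv.ofFiberEquiv fun c => (h1 c).some, fun x => ?_⟩
  exact (Equiv.ofFiberEquiv_map _ x).symm

/-! ### Correctness -/

section

variable {n : ℕ} (G H : SimpleGraph (Fin n)) (k : ℕ)

/-- One of the two graphs. -/
def sel (b : Bool) : SimpleGraph (Fin n) := if b = true then H else G

/-- The input for the algorithm. -/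
noncomputable def inp2 : Inp := (R671.adjMatrix G, R671.adjMatrix H)

theorem len_inp : (inp2 G H).1.length = n := length_adjMatrix G

theorem entS_inp (b : Bool) (i j : Fin n) : entS (inp2 G H) b i j = true ↔
    (sel G H b).Adj i j := by
  unfold entS sel inp2
  cases b
  · simpa using ent_adjMatrix G i j
  · simpa using ent_adjMatrix H i j

theorem isoB_iff (b b' : Bool) (S S' : Fin k → Fin n) :
    isoB (inp2 G H) k (b, enc S) (b', enc S') = true ↔
      isoType (sel G H b) k S = isoType (sel G H b') k S' := by
  unfold isoB
  simp only [List.all_eq_true, List.mem_range, Bool.and_eq_true, decide_eq_true_eq]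
  have h1 : ∀ (i j : Fin k), (((decide ((enc S).getD i 0 = (enc S).getD j 0) =
      decide ((enc S').getD i 0 = (enc S').getD j 0)) ∧
      (entS (inp2 G H) b ((enc S).getD i 0) ((enc S).getD j 0) =
      entS (inp2 G H) b' ((enc S').getD i 0) ((enc S').getD j 0))) ↔
      ((S i = S j ↔ S' i = S' j) ∧
        ((sel G H b).Adj (S i) (S j) ↔ (sel G H b').Adj (S' i) (S' j)))) := by
    intro i j
    rw [getD_enc, getD_enc, getD_enc, getD_enc, decide_eq_decide, Bool.eq_iff_iff, entS_inp,
      entS_inp, Fin.val_inj, Fin.val_inj]
  constructor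
  · intro h
    unfold isoType
    refine Prod.ext ?_ ?_
    · funext i j
      exact propext ((h1 i j).1 (h i i.2 j j.2)).1
    · funext i j
      exact propext ((h1 i j).1 (h i i.2 j j.2)).2
  · intro h i hi j hj
    refine (h1 ⟨i, hi⟩ ⟨j, hj⟩).2 ⟨?_, ?_⟩
    · exact iff_of_eq (congrFun (congrFun (congrArg Prod.fst h) ⟨i, hi⟩) ⟨j, hj⟩)
    · exact iff_of_eq (congrFun (congrFun (congrArg Prod.snd h) ⟨i, hi⟩) ⟨j, hj⟩)

theorem mem_sits (b : Bool) (S : Fin k → Fin n) : (b, enc S) ∈ sits (inp2 G H) k := by
  unfold sits
  rw [len_inp, List.mem_append, List.mem_map, List.mem_map]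
  cases b
  · exact Or.inl ⟨_, (mem_tup _ _ _).2 ⟨S, rfl⟩, rfl⟩
  · exact Or.inr ⟨_, (mem_tup _ _ _).2 ⟨S, rfl⟩, rfl⟩

/-- The relation after `t` rounds. -/
noncomputable def relT (t : ℕ) : List (Sit × Sit) := (next (inp2 G H) k)^[t] (rel0 (inp2 G H) k)

theorem relT_succ (t : ℕ) : relT G H k (t + 1) = next (inp2 G H) k (relT G H k t) := by
  unfold relT
  rw [Function.iterate_succ_apply']

theorem wl_succ (b b' : Bool) (t : ℕ) (S S' : Fin k → Fin n) :
    wl (sel G H b) k (t + 1) S = wl (sel G H b') k (t + 1) S' ↔
      wl (sel G H b) k t S = wl (sel G H b') k t S' ∧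
      (univ : Finset (Fin n)).val.map (fun x => fun i =>
        wl (sel G H b) k t (Function.update S i x)) =
      (univ : Finset (Fin n)).val.map (fun x => fun i =>
        wl (sel G H b') k t (Function.update S' i x)) := by
  constructor
  · intro h
    exact ⟨congrArg Prod.fst h, congrArg Prod.snd h⟩
  · rintro ⟨h1, h2⟩
    exact Prod.ext h1 h2

theorem mem_relT (t : ℕ) (b b' : Bool) (S S' : Fin k → Fin n) :
    ((b, enc S), (b', enc S')) ∈ relT G H k t ↔
      wl (sel G H b) k t S = wl (sel G H b') k t S' := by
  classical
  induction t generalizing b b' S S' with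
  | zero =>
    show _ ∈ rel0 (inp2 G H) k ↔ _
    unfold rel0
    rw [List.mem_filter, List.mem_product]
    simp only [mem_sits, true_and, and_self]
    rw [isoB_iff]
    rfl
  | succ t ih =>
    rw [relT_succ, next, List.mem_filter, ih, wl_succ]
    refine and_congr_right fun _ => ?_
    rw [map_eq_iff, len_inp]
    simp only [List.all_eq_true, List.mem_range, decide_eq_true_eq]
    have key : ∀ (b b' : Bool) (S S' : Fin k → Fin n) (y : Fin n),
        cnt (inp2 G H) k (relT G H k t) (b', enc S') (b, enc S) y =
          (univ.filter fun x : Fin n => (fun i => wl (sel G H b') k t (Function.update S' i x)) =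
            fun i => wl (sel G H b) k t (Function.update S i y)).card := by
      intro b b' S S' y
      unfold cnt
      rw [len_inp, filter_range]
      congr 1
      ext x
      simp only [mem_filter, mem_univ, true_and, List.all_eq_true, List.mem_range,
        decide_eq_true_eq]
      constructor
      · intro h
        funext i
        have h2 := h i i.2
        rw [upd_enc, upd_enc, ih] at h2
        exact h2
      · intro h i hi
        have h2 := congrFun h ⟨i, hi⟩
        have h3 := upd_enc S' ⟨i, hi⟩ x
        have h4 := upd_enc S ⟨i, hi⟩ y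
        simp only at h3 h4
        rw [h3, h4, ih]
        exact h2
    constructor
    · intro h y
      have h2 := h y y.2
      rw [key, key] at h2
      convert h2
    · intro h y hy
      have h2 := h ⟨y, hy⟩
      have h3 := key b b S S ⟨y, hy⟩
      have h4 := key b b' S S' ⟨y, hy⟩
      simp only at h3 h4
      rw [h3, h4]
      convert h2

/-! ### Stabilisation -/

theorem stab {α : Type} (f : List α → List α) (hf : ∀ R, (f R).Sublist R) (N : ℕ) :
    ∀ R : List α, R.length ≤ N → ∀ t, N ≤ t → f^[t] R = f^[N] R := by
  induction N with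
  | zero =>
    intro R hR t _
    have h1 : R = [] := List.length_eq_zero_iff.1 (by omega)
    subst h1
    have h2 : ∀ t, f^[t] [] = [] := by
      intro t
      induction t with
      | zero => rfl
      | succ t ih =>
        rw [Function.iterate_succ_apply', ih]
        exact List.sublist_nil.1 (hf [])
    rw [h2, h2]
  | succ N ih =>
    intro R hR t ht
    by_cases h : f R = R
    · have h2 : ∀ t, f^[t] R = R := fun t => Function.iterate_fixed h t
      rw [h2, h2]
    · have h3 : (f R).length ≤ N := by
        have h4 := (hf R).length_le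
        rcases Nat.lt_or_ge (f R).length R.length with h5 | h5
        · omega
        · exact absurd ((hf R).eq_of_length_le h5) h
      obtain ⟨t, rfl⟩ : ∃ t', t = t' + 1 := ⟨t - 1, by omega⟩
      rw [Function.iterate_succ_apply, Function.iterate_succ_apply]
      exact ih (f R) h3 t (by omega)

theorem final_eq (t : ℕ) (ht : (sits (inp2 G H) k ×ˢ sits (inp2 G H) k).length ≤ t) :
    relT G H k t = final (inp2 G H) k := by
  unfold relT final
  refine stab _ (next_sublist _ k) _ _ ?_ t ht
  unfold rel0
  exact List.length_filter_le _ _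

theorem mem_final (b b' : Bool) (S S' : Fin k → Fin n) :
    ((b, enc S), (b', enc S')) ∈ final (inp2 G H) k ↔
      ∀ t, wl (sel G H b) k t S = wl (sel G H b') k t S' := by
  constructor
  · intro h t
    have h1 : relT G H k (t + (sits (inp2 G H) k ×ˢ sits (inp2 G H) k).length) =
      final (inp2 G H) k := final_eq G H k _ (by omega)
    rw [← h1, mem_relT] at h
    have h2 : ∀ d, wl (sel G H b) k (t + d) S = wl (sel G H b') k (t + d) S' →
        wl (sel G H b) k t S = wl (sel G H b') k t S' := by
      intro d
      induction d with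
      | zero => exact fun h => h
      | succ d ih => exact fun h => ih ((wl_succ G H k b b' (t + d) S S').1 h).1
    exact h2 _ h
  · intro h
    rw [← final_eq G H k _ le_rfl, mem_relT]
    exact h _

/-- The algorithm is correct. -/
theorem wlTest_iff : wlTest k (inp2 G H) = true ↔ WLEquivalent k G H := by
  classical
  have hcls : ∀ (b : Bool) (S : Fin k → Fin n), cls (inp2 G H) k (final (inp2 G H) k) b (enc S) =
      (univ.filter fun S' : Fin k → Fin n => (fun t => wl (sel G H b) k t S') =
        fun t => wl G k t S).card := by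
    intro b S
    unfold cls
    rw [len_inp, filter_tup]
    congr 1
    ext S'
    simp only [mem_filter, mem_univ, true_and, decide_eq_true_eq]
    rw [mem_final, funext_iff]
    exact Iff.rfl
  have h1 : wlTest k (inp2 G H) = true ↔ ∀ S : Fin k → Fin n,
      (univ.filter fun S' : Fin k → Fin n => (fun t => wl G k t S') =
        fun t => wl G k t S).card =
      (univ.filter fun S' : Fin k → Fin n => (fun t => wl H k t S') =
        fun t => wl G k t S).card := by
    unfold wlTest test
    rw [len_inp]
    simp only [List.all_eq_true, decide_eq_true_eq]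
    constructor
    · intro h S
      have h2 := h (enc S) ((mem_tup _ _ _).2 ⟨S, rfl⟩)
      rw [hcls, hcls] at h2
      exact h2
    · intro h L hL
      obtain ⟨S, rfl⟩ := (mem_tup _ _ _).1 hL
      rw [hcls, hcls]
      exact h S
  rw [h1, ← map_eq_iff (fun S : Fin k → Fin n => fun t => wl G k t S)
    (fun S : Fin k → Fin n => fun t => wl H k t S)]
  constructor
  · intro h
    obtain ⟨ψ, hψ⟩ := exists_equiv_of_map _ _ h
    exact ⟨ψ, fun t S => congrFun (hψ S) t⟩
  · rintro ⟨ψ, hψ⟩
    have h2 : (fun S : Fin k → Fin n => fun t => wl G k t S) =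
        (fun S : Fin k → Fin n => fun t => wl H k t S) ∘ ψ := by
      funext S t
      exact hψ t S
    rw [h2, ← Multiset.map_map]
    congr 1
    simp

end

end Pool.Agent.U16.GI
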